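import Mathlib

/-! Combinatorial part: almost invariant functions on a group that are blocked at the identity. -/

namespace Pool.Agent.H507Z.Circ

open Set

section Words

/-- Words over the letters `A` of length `< n`. -/
def Wd {L : Type*} (A : Set L) (n : ℕ) : Set (List L) := {l | (∀ x ∈ l, x ∈ A) ∧ l.length < n}

theorem Wd_finite {L : Type*} {A : Set L} (hA : A.Finite) (n : ℕ) : (Wd A n).Finite := by
  induction n with
  | zero =>
    convert Set.finite_empty
    ext l; simp [Wd]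
  | succ n ih =>
    refine ((Set.finite_singleton ([] : List L)).union (hA.image2 List.cons ih)).subset ?_
    rintro l ⟨h1, h2⟩
    cases l with
    | nil => simp
    | cons x l =>
      right
      refine ⟨x, h1 x (by simp), l, ⟨fun y hy => h1 y (by simp [hy]), ?_⟩, rfl⟩
      simpa using h2

variable {Γ : Type*} [Group Γ]

/-- Products of fewer than `r` generators. -/
def Bl (S : Set Γ) (r : ℕ) : Set Γ := List.prod '' Wd S r

theorem Bl_finite {S : Set Γ} (hS : S.Finite) (r : ℕ) : (Bl S r).Finite :=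
  (Wd_finite hS r).image _

theorem Bl_mono {S : Set Γ} {r r' : ℕ} (h : r ≤ r') : Bl S r ⊆ Bl S r' := by
  rintro g ⟨l, ⟨h1, h2⟩, rfl⟩
  exact ⟨l, ⟨h1, by omega⟩, rfl⟩

theorem one_mem_Bl {S : Set Γ} {r : ℕ} (h : 1 ≤ r) : (1 : Γ) ∈ Bl S r :=
  ⟨[], ⟨by simp, h⟩, rfl⟩

theorem Bl_one {S : Set Γ} {g : Γ} (h : g ∈ Bl S 1) : g = 1 := by
  obtain ⟨l, ⟨_, h2⟩, rfl⟩ := h
  have : l = [] := List.length_eq_zero_iff.1 (by omega)
  simp [this]

theorem mul_mem_Bl {S : Set Γ} {r : ℕ} {s g : Γ} (hs : s ∈ S) (h : g ∈ Bl S r) :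
    s * g ∈ Bl S (r + 1) := by
  obtain ⟨l, ⟨h1, h2⟩, rfl⟩ := h
  refine ⟨s :: l, ⟨?_, by simpa using h2⟩, by simp⟩
  intro x hx
  rcases List.mem_cons.1 hx with rfl | hx
  · exact hs
  · exact h1 x hx

theorem inv_mem_Bl {S : Set Γ} (hS : ∀ s ∈ S, s⁻¹ ∈ S) {r : ℕ} {g : Γ} (h : g ∈ Bl S r) :
    g⁻¹ ∈ Bl S r := by
  obtain ⟨l, ⟨h1, h2⟩, rfl⟩ := h
  refine ⟨(l.map fun x => x⁻¹).reverse, ⟨?_, by simpa using h2⟩, (List.prod_inv_reverse l).symm⟩
  intro x hx
  simp only [List.mem_reverse, List.mem_map] at hx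
  obtain ⟨y, hy, rfl⟩ := hx
  exact hS y (h1 y hy)

theorem Bl_sub_closure {S : Set Γ} {r : ℕ} {g : Γ} (h : g ∈ Bl S r) :
    g ∈ Subgroup.closure S := by
  obtain ⟨l, ⟨h1, -⟩, rfl⟩ := h
  exact Subgroup.list_prod_mem _ fun x hx => Subgroup.subset_closure (h1 x hx)

theorem exists_Bl {S : Set Γ} (hS : ∀ s ∈ S, s⁻¹ ∈ S) {g : Γ} (h : g ∈ Subgroup.closure S) :
    ∃ r, g ∈ Bl S r := by
  induction h using Subgroup.closure_induction_left with
  | one => exact ⟨1, one_mem_Bl le_rfl⟩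
  | mul_left x hx y _ ih => obtain ⟨r, hr⟩ := ih; exact ⟨r + 1, mul_mem_Bl hx hr⟩
  | inv_mul_cancel x hx y _ ih => obtain ⟨r, hr⟩ := ih; exact ⟨r + 1, mul_mem_Bl (hS x hx) hr⟩

/-- The sign of a letter `t` or `t⁻¹`. -/
def sg : Bool → ℤ
  | true => 1
  | false => -1

/-- Value of a letter. -/
def val (a : Γ) : Γ ⊕ Bool → Γ
  | Sum.inl s => s
  | Sum.inr b => a ^ sg b

/-- Value of a word. -/
def ev (a : Γ) (W : List (Γ ⊕ Bool)) : Γ := (W.map (val a)).prod

/-- Allowed letters. -/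
def Let (S : Set Γ) : Set (Γ ⊕ Bool) := Sum.inl '' S ∪ range Sum.inr

omit [Group Γ] in
theorem Let_finite {S : Set Γ} (hS : S.Finite) : (Let S).Finite :=
  (hS.image _).union (Set.finite_range _)

theorem ev_cons (a : Γ) (x : Γ ⊕ Bool) (W : List (Γ ⊕ Bool)) :
    ev a (x :: W) = val a x * ev a W := by simp [ev]

/-- Value of the tail of a normal form. -/
def evL (a : Γ) (L : List (ℤ × Γ)) : Γ := (L.map fun p => a ^ p.1 * p.2).prod

theorem evL_cons (a : Γ) (p : ℤ × Γ) (L : List (ℤ × Γ)) :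
    evL a (p :: L) = a ^ p.1 * p.2 * evL a L := by simp [evL]

open Classical in
/-- Left multiplication of a normal form by a letter. -/
noncomputable def step : Γ ⊕ Bool → Γ × List (ℤ × Γ) → Γ × List (ℤ × Γ)
  | Sum.inl s, X => (s * X.1, X.2)
  | Sum.inr b, (g, []) => (1, [(sg b, g)])
  | Sum.inr b, (g, p :: L) =>
      if g = 1 then (if sg b + p.1 = 0 then (p.2, L) else (1, (sg b + p.1, p.2) :: L))
      else (1, (sg b, g) :: p :: L)

/-- The normal form of a word in the free product with an infinite cyclic group. -/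
noncomputable def nf (W : List (Γ ⊕ Bool)) : Γ × List (ℤ × Γ) := W.foldr step (1, [])

theorem nf_cons (x : Γ ⊕ Bool) (W : List (Γ ⊕ Bool)) : nf (x :: W) = step x (nf W) := rfl

theorem ev_step (a : Γ) (x : Γ ⊕ Bool) (X : Γ × List (ℤ × Γ)) :
    (step x X).1 * evL a (step x X).2 = val a x * (X.1 * evL a X.2) := by
  obtain ⟨g, L⟩ := X
  cases x with
  | inl s => simp [step, val, mul_assoc]
  | inr b =>
    cases L with
    | nil => simp [step, val, evL]
    | cons p L =>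
      simp only [step, val]
      split_ifs with h1 h2
      · subst h1
        rw [evL_cons]
        simp only [one_mul, ← mul_assoc, ← zpow_add, h2, zpow_zero]
      · subst h1
        simp only [evL_cons, one_mul, ← mul_assoc, ← zpow_add]
      · simp only [evL_cons, one_mul, mul_assoc]

theorem ev_nf (a : Γ) (W : List (Γ ⊕ Bool)) : ev a W = (nf W).1 * evL a (nf W).2 := by
  induction W with
  | nil => simp [ev, nf, evL]
  | cons x W ih => rw [ev_cons, nf_cons, ev_step, ih]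

/-- Normal tails with entries in `B`. -/
def NL (B : Set Γ) : List (ℤ × Γ) → Prop
  | [] => True
  | p :: L => p.1 ≠ 0 ∧ p.2 ∈ B ∧ (L ≠ [] → p.2 ≠ 1) ∧ NL B L

theorem NL_mono {B B' : Set Γ} (h : B ⊆ B') : ∀ {L : List (ℤ × Γ)}, NL B L → NL B' L
  | [], _ => trivial
  | _ :: _, ⟨h1, h2, h3, h4⟩ => ⟨h1, h h2, h3, NL_mono h h4⟩

theorem sg_ne (b : Bool) : sg b ≠ 0 := by cases b <;> simp [sg]

theorem nf_normal {S : Set Γ} (W : List (Γ ⊕ Bool)) (hW : ∀ x ∈ W, x ∈ Let S) :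
    (nf W).1 ∈ Bl S (W.length + 1) ∧ NL (Bl S (W.length + 1)) (nf W).2 := by
  induction W with
  | nil => exact ⟨one_mem_Bl (by simp), trivial⟩
  | cons x W ih =>
    obtain ⟨h1, h2⟩ := ih fun y hy => hW y (by simp [hy])
    have hm : Bl S (W.length + 1) ⊆ Bl S ((x :: W).length + 1) := Bl_mono (by simp)
    have h1' := hm h1
    have h2' := NL_mono hm h2
    have hone : (1 : Γ) ∈ Bl S ((x :: W).length + 1) := one_mem_Bl (by simp)
    rw [nf_cons]
    generalize nf W = X at *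
    obtain ⟨g, L⟩ := X
    cases x with
    | inl s =>
      have hs : s ∈ S := by
        rcases hW (Sum.inl s) (by simp) with ⟨s', hs', h⟩ | ⟨b, h⟩
        · cases h; exact hs'
        · cases h
      exact ⟨mul_mem_Bl hs h1, h2'⟩
    | inr b =>
      cases L with
      | nil => exact ⟨hone, sg_ne b, h1', by simp, trivial⟩
      | cons p L =>
        simp only [step]
        obtain ⟨k1, k2, k3, k4⟩ := h2'
        split_ifs with e1 e2
        · exact ⟨k2, k4⟩
        · exact ⟨hone, e2, k2, k3, k4⟩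
        · exact ⟨hone, sg_ne b, h1', fun _ => e1, k1, k2, k3, k4⟩

open Classical in
/-- The last group entry of a tail. -/
noncomputable def lastG : List (ℤ × Γ) → Γ
  | [] => 1
  | p :: L => if L = [] then p.2 else lastG L

theorem lastG_mem {B : Set Γ} : ∀ {L : List (ℤ × Γ)}, L ≠ [] → NL B L → lastG L ∈ B
  | [], h, _ => (h rfl).elim
  | p :: L, _, ⟨_, h2, _, h4⟩ => by
    simp only [lastG]
    split_ifs with e
    · exact h2
    · exact lastG_mem e h4

/-- Admissible words: no letter `t` or `t⁻¹` is applied at the identity. -/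
def Adm (a : Γ) : List (Γ ⊕ Bool) → Prop
  | [] => True
  | x :: W => Adm a W ∧ ((∃ b, x = Sum.inr b) → ev a W ≠ 1)

theorem adm_last (a : Γ) (W : List (Γ ⊕ Bool)) (hW : Adm a W) :
    (nf W).2 = [] ∨ lastG (nf W).2 ≠ 1 := by
  induction W with
  | nil => left; rfl
  | cons x W ih =>
    obtain ⟨h1, h2⟩ := hW
    have ih := ih h1
    rw [ev_nf] at h2
    rw [nf_cons]
    generalize nf W = X at *
    obtain ⟨g, L⟩ := X
    cases x with
    | inl s => exact ih
    | inr b =>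
      have h2 := h2 ⟨b, rfl⟩
      cases L with
      | nil => right; simpa [step, lastG, evL] using h2
      | cons p L =>
        have ih : lastG (p :: L) ≠ 1 := by simpa using ih
        simp only [step]
        split_ifs with e1 e2
        · by_cases hL : L = []
          · left; exact hL
          · right; simpa [lastG, hL] using ih
        · right; simpa [lastG] using ih
        · right
          have : lastG ((sg b, g) :: p :: L) = lastG (p :: L) := by simp [lastG]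
          simpa [this] using ih

theorem pingpong {Y : Type*} [MulAction Γ Y] {B : Set Γ} {b : Γ} {N : Set Y}
    (hB : ∀ g ∈ B, g ≠ 1 → ∀ y ∈ N, g⁻¹ • y ∉ N)
    (hb : ∀ n : ℤ, n ≠ 0 → ∀ y ∉ N, b ^ n • y ∈ N) :
    ∀ (L : List (ℤ × Γ)), L ≠ [] → NL B L → ∀ y ∉ N, lastG L • ((evL b L)⁻¹ • y) ∈ N
  | [], h, _, _, _ => (h rfl).elim
  | p :: L, _, ⟨h1, h2, h3, h4⟩, y, hy => by
    have e : (evL b (p :: L))⁻¹ • y = (evL b L)⁻¹ • (p.2⁻¹ • (b ^ (-p.1) • y)) := by
      rw [evL_cons]; simp [mul_smul]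
    have hN : b ^ (-p.1) • y ∈ N := hb _ (by simpa using h1) y hy
    rw [e]
    simp only [lastG]
    split_ifs with hL
    · subst hL
      simpa [evL] using hN
    · exact pingpong hB hb L hL h4 _ (hB _ h2 (h3 hL) _ hN)

/-- Truncated admissible length. -/
noncomputable def len (S : Set Γ) (a : Γ) (R : ℕ) (g : Γ) : ℕ :=
  sInf {n | n = R ∨ ∃ V, (∀ x ∈ V, x ∈ Let S) ∧ Adm a V ∧ ev a V = g ∧ V.length = n}

theorem len_le (S : Set Γ) (a : Γ) (R : ℕ) (g : Γ) : len S a R g ≤ R :=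
  Nat.sInf_le (Or.inl rfl)

theorem len_le_of {S : Set Γ} {a : Γ} (R : ℕ) {V : List (Γ ⊕ Bool)} (h1 : ∀ x ∈ V, x ∈ Let S)
    (h2 : Adm a V) : len S a R (ev a V) ≤ V.length :=
  Nat.sInf_le (Or.inr ⟨V, h1, h2, rfl, rfl⟩)

theorem len_spec {S : Set Γ} {a : Γ} {R : ℕ} {g : Γ} (h : len S a R g ≠ R) :
    ∃ V, (∀ x ∈ V, x ∈ Let S) ∧ Adm a V ∧ ev a V = g ∧ V.length = len S a R g := by
  have := Nat.sInf_mem (s := {n | n = R ∨ ∃ V, (∀ x ∈ V, x ∈ Let S) ∧ Adm a V ∧ ev a V = g ∧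
    V.length = n}) ⟨R, Or.inl rfl⟩
  rcases this with h' | h'
  · exact (h h').elim
  · exact h'

theorem len_step {S : Set Γ} {a : Γ} {R : ℕ} {g : Γ} {x : Γ ⊕ Bool} (hx : x ∈ Let S)
    (h : (∃ b, x = Sum.inr b) → g ≠ 1) : len S a R (val a x * g) ≤ len S a R g + 1 := by
  by_cases e : len S a R g = R
  · have := len_le S a R (val a x * g); omega
  · obtain ⟨V, h1, h2, h3, h4⟩ := len_spec e
    have := len_le_of (S := S) (a := a) R (V := x :: V) (by
      intro y hy
      rcases List.mem_cons.1 hy with rfl | hy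
      · exact hx
      · exact h1 y hy) ⟨h2, by rwa [h3]⟩
    rw [ev_cons, h3] at this
    simpa [h4] using this

theorem len_Bl {S : Set Γ} (a : Γ) (R : ℕ) {r : ℕ} {g : Γ} (h : g ∈ Bl S r) :
    len S a R g < r := by
  obtain ⟨l, ⟨h1, h2⟩, rfl⟩ := h
  refine lt_of_le_of_lt ?_ h2
  clear h2
  induction l with
  | nil => simpa [ev] using len_le_of (S := S) (a := a) R (V := []) (by simp) trivial
  | cons s l ih =>
    have := len_step (S := S) (a := a) (R := R) (g := l.prod) (x := Sum.inl s)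
      (Or.inl ⟨s, h1 s (by simp), rfl⟩) (by rintro ⟨b, hb⟩; cases hb)
    have ih := ih fun y hy => h1 y (by simp [hy])
    simp only [val] at this
    simp only [List.prod_cons, List.length_cons]
    omega

theorem ev_mem {S : Set Γ} {a : Γ} {G : Subgroup Γ} (hS : S ⊆ G) (ha : a ∈ G)
    (V : List (Γ ⊕ Bool)) (hV : ∀ x ∈ V, x ∈ Let S) : ev a V ∈ G := by
  induction V with
  | nil => simp [ev]
  | cons x V ih =>
    rw [ev_cons]
    refine G.mul_mem ?_ (ih fun y hy => hV y (by simp [hy]))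
    rcases hV x (by simp) with ⟨s, hs, rfl⟩ | ⟨b, rfl⟩
    · exact hS hs
    · exact G.zpow_mem ha _

theorem block {Y : Type*} [MulAction Γ Y] {S : Set Γ} (hSf : S.Finite) (hS : ∀ s ∈ S, s⁻¹ ∈ S)
    {G : Subgroup Γ} (hSG : S ⊆ G) {r : ℕ} (hr : 1 ≤ r) {a b : Γ} (ha : a ∈ G) {N : Set Y} {x0 : Y}
    (hgen : ∀ V ∈ Wd (Let S) (2 * r), ∀ W ∈ Wd (Let S) (2 * r), ∀ g ∈ Bl S (2 * r),
      ev a V = ev a W * g → ev b V = ev b W * g)
    (hB : ∀ g ∈ Bl S (2 * r), g ≠ 1 → ∀ y ∈ N, g • y ∉ N)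
    (hx : ∀ g ∈ Bl S (2 * r), g • x0 ∉ N)
    (hb : ∀ n : ℤ, n ≠ 0 → ∀ y ∉ N, b ^ n • y ∈ N) :
    ∃ f : Γ → ℝ, {g | f g ≠ 0}.Finite ∧ (∀ g, f g ≠ 0 → g ∈ G) ∧ (∀ g, 0 ≤ f g) ∧
      (∀ s ∈ S, ∀ g, |f (s * g) - f g| ≤ 1 / r) ∧
      (∀ g, g ≠ 1 → a * g ≠ 1 → |f (a * g) - f g| ≤ 1 / r) ∧
      (∀ w ∉ Bl S r, ∃ g, 1 / 2 ≤ |f (w * g) - f g|) := by
  have hr0 : (0 : ℝ) < r := by exact_mod_cast hr
  set ℓ : Γ → ℕ := len S a (2 * r) with hℓ
  have hlip : ∀ u v : Γ, ℓ u ≤ ℓ v + 1 → ℓ v ≤ ℓ u + 1 →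
      |(1 - (ℓ u : ℝ) / (2 * r)) - (1 - (ℓ v : ℝ) / (2 * r))| ≤ 1 / r := by
    intro u v h1 h2
    have h1' : (ℓ u : ℝ) ≤ ℓ v + 1 := by exact_mod_cast h1
    have h2' : (ℓ v : ℝ) ≤ ℓ u + 1 := by exact_mod_cast h2
    have : (1 - (ℓ u : ℝ) / (2 * r)) - (1 - (ℓ v : ℝ) / (2 * r)) = (ℓ v - ℓ u) / (2 * r) := by
      field_simp; ring
    rw [this, abs_div, abs_of_pos (by positivity : (0 : ℝ) < 2 * r),
      div_le_div_iff₀ (by positivity) hr0]
    have : |(ℓ v : ℝ) - ℓ u| ≤ 1 := abs_le.2 ⟨by linarith, by linarith⟩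
    nlinarith
  have hsupp : ∀ g, (1 - (ℓ g : ℝ) / (2 * r)) ≠ 0 → ℓ g ≠ 2 * r := by
    intro g h e
    apply h
    rw [e]; push_cast; field_simp; ring
  refine ⟨fun g => 1 - (ℓ g : ℝ) / (2 * r), ?_, ?_, ?_, ?_, ?_, ?_⟩
  · refine ((Wd_finite (Let_finite hSf) (2 * r)).image (ev a)).subset ?_
    intro g hg
    have h := hsupp g hg
    obtain ⟨V, h1, -, h3, h4⟩ := len_spec h
    have := len_le S a (2 * r) g
    exact ⟨V, ⟨h1, by rw [h4]; exact lt_of_le_of_ne this h⟩, h3⟩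
  · intro g hg
    obtain ⟨V, h1, -, h3, -⟩ := len_spec (hsupp g hg)
    rw [← h3]; exact ev_mem hSG ha V h1
  · intro g
    have : (ℓ g : ℝ) ≤ 2 * r := by exact_mod_cast len_le S a (2 * r) g
    rw [sub_nonneg, div_le_one (by positivity)]; exact this
  · intro s hs g
    apply hlip
    · exact len_step (x := Sum.inl s) (Or.inl ⟨s, hs, rfl⟩) (by rintro ⟨b, hb⟩; cases hb)
    · have := len_step (S := S) (a := a) (R := 2 * r) (g := s * g) (x := Sum.inl s⁻¹)
        (Or.inl ⟨s⁻¹, hS s hs, rfl⟩) (by rintro ⟨b, hb⟩; cases hb)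
      simpa [val] using this
  · intro g h1 h2
    apply hlip
    · have := len_step (S := S) (a := a) (R := 2 * r) (g := g) (x := Sum.inr true)
        (Or.inr ⟨true, rfl⟩) (fun _ => h1)
      simpa [val, sg] using this
    · have := len_step (S := S) (a := a) (R := 2 * r) (g := a * g) (x := Sum.inr false)
        (Or.inr ⟨false, rfl⟩) (fun _ => h2)
      simpa [val, sg] using this
  · intro w hw
    by_cases hlw : r ≤ ℓ w
    · refine ⟨1, ?_⟩
      have h1 : ℓ 1 = 0 := by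
        have := len_Bl (S := S) a (2 * r) (one_mem_Bl (le_refl 1))
        change len S a (2 * r) 1 = 0
        omega
      have h2 : (r : ℝ) ≤ ℓ w := by exact_mod_cast hlw
      simp only [mul_one, h1]
      rw [le_abs]; right
      have : (1 : ℝ) / 2 ≤ (ℓ w : ℝ) / (2 * r) := by
        rw [div_le_div_iff₀ (by norm_num) (by positivity)]; linarith
      simp only [Nat.cast_zero, zero_div]; linarith
    · push Not at hlw
      obtain ⟨W, w1, -, w3, w4⟩ := len_spec (S := S) (a := a) (R := 2 * r) (g := w)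
        (by change ℓ w ≠ _; omega)
      have w5 : W.length < r := by rw [w4]; exact hlw
      obtain ⟨n1, n2⟩ := nf_normal W w1
      have hsub : Bl S (W.length + 1) ⊆ Bl S r := Bl_mono (by omega)
      have hsub2 : Bl S r ⊆ Bl S (2 * r) := Bl_mono (by omega)
      have hL : (nf W).2 ≠ [] := by
        intro e
        apply hw
        rw [← w3, ev_nf, e]
        simpa [evL] using hsub n1
      have hg : lastG (nf W).2 ∈ Bl S r := hsub (lastG_mem hL n2)
      have hgi : (lastG (nf W).2)⁻¹ ∈ Bl S r := inv_mem_Bl hS hg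
      refine ⟨(lastG (nf W).2)⁻¹, ?_⟩
      have hB' : ∀ g ∈ Bl S (2 * r), g ≠ 1 → ∀ y ∈ N, g⁻¹ • y ∉ N := fun g hg h1 =>
        hB _ (inv_mem_Bl hS hg) (by simpa using h1)
      have key : ℓ (w * (lastG (nf W).2)⁻¹) = 2 * r := by
        by_contra hne
        obtain ⟨V, v1, v2, v3, v4⟩ := len_spec hne
        have v5 : V.length < 2 * r := by
          rw [v4]; exact lt_of_le_of_ne (len_le _ _ _ _) hne
        have e := hgen V ⟨v1, v5⟩ W ⟨w1, by omega⟩ _ (hsub2 hgi) (by rw [v3, w3])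
        obtain ⟨m1, m2⟩ := nf_normal V v1
        have hsub3 : Bl S (V.length + 1) ⊆ Bl S (2 * r) := Bl_mono (by omega)
        have p1 : (ev b V)⁻¹ • x0 ∈ N := by
          rw [e, ev_nf]
          have := pingpong hB' hb _ hL (NL_mono (hsub.trans hsub2) n2) _
            (hx _ (inv_mem_Bl hS (hsub2 (hsub n1))))
          simpa [mul_smul] using this
        rw [ev_nf] at p1
        rcases adm_last a V v2 with h | h
        · rw [h] at p1
          exact hx _ (inv_mem_Bl hS (hsub3 m1)) (by simpa [evL] using p1)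
        · by_cases hV : (nf V).2 = []
          · rw [hV] at h; exact h rfl
          · have := pingpong hB' hb _ hV (NL_mono hsub3 m2) _ (hx _ (inv_mem_Bl hS (hsub3 m1)))
            refine hB _ (hsub3 (lastG_mem hV m2)) h _ ?_ this
            simpa [mul_smul] using p1
      have h2 : ℓ (lastG (nf W).2)⁻¹ < r := len_Bl a (2 * r) hgi
      have h3 : (ℓ (lastG (nf W).2)⁻¹ : ℝ) ≤ r := by exact_mod_cast h2.le
      simp only [key]
      rw [le_abs]; right
      have : (ℓ (lastG (nf W).2)⁻¹ : ℝ) / (2 * r) ≤ 1 / 2 := by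
        rw [div_le_div_iff₀ (by positivity) (by norm_num)]; linarith
      have h4 : ((2 * r : ℕ) : ℝ) / (2 * r) = 1 := by push_cast; field_simp
      rw [h4]; linarith

end Words

end Pool.Agent.H507Z.Circ
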