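import Pool.Agent.H507Z.Circ.Limit

/-! The conjugating homeomorphism and the new `C^1` action. -/

namespace Pool.Agent.H507Z.Circ

open Filter Set Topology MeasureTheory

theorem deriv_ratio {H K Φ σ c : ℝ → ℝ} (hσ0 : ∀ t, 0 ≤ σ t)
    (hσ : ∀ x y, IntervalIntegrable σ volume x y) (hc : Continuous c)
    (hH : ∀ x y, H y - H x = ∫ t in x..y, σ t) (hΦ : ∀ x y, Φ y - Φ x = ∫ t in x..y, c t * σ t)
    (hK : Continuous K) (hHK : ∀ y, H (K y) = y) (y0 : ℝ) :
    HasDerivAt (fun y => Φ (K y)) (c (K y0)) y0 := by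
  rw [hasDerivAt_iff_isLittleO, Asymptotics.isLittleO_iff]
  intro ε hε
  obtain ⟨δ, hδ, h⟩ := Metric.continuousAt_iff.1 (hc.continuousAt (x := K y0)) ε hε
  filter_upwards [Metric.tendsto_nhds.1 (hK.continuousAt (x := y0)) δ hδ] with y hy
  have e1 : y - y0 = ∫ t in K y0..K y, σ t := by rw [← hH, hHK, hHK]
  have i1 : IntervalIntegrable (fun t => c t * σ t) volume (K y0) (K y) :=
    (hσ _ _).continuousOn_mul hc.continuousOn
  have e2 : Φ (K y) - Φ (K y0) - (y - y0) • c (K y0) =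
      ∫ t in K y0..K y, (c t * σ t - c (K y0) * σ t) := by
    rw [hΦ, intervalIntegral.integral_sub i1 ((hσ _ _).const_mul _),
      intervalIntegral.integral_const_mul, e1, smul_eq_mul, mul_comm]
  rw [e2]
  refine (intervalIntegral.norm_integral_le_abs_of_norm_le (g := fun t => ε * σ t) ?_
    ((hσ _ _).const_mul _)).trans ?_
  · refine ae_restrict_of_forall_mem measurableSet_uIoc fun t ht => ?_
    have h1 : dist t (K y0) < δ := by
      refine lt_of_le_of_lt ?_ hy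
      have := abs_sub_left_of_mem_uIcc (uIoc_subset_uIcc ht)
      simpa [Real.dist_eq] using this
    have h2 := h h1
    rw [← sub_mul, norm_mul, Real.norm_of_nonneg (hσ0 t)]
    exact mul_le_mul_of_nonneg_right h2.le (hσ0 t)
  · rw [intervalIntegral.integral_const_mul, ← e1, abs_mul, abs_of_pos hε]
    rfl

theorem exists_conj {ρ : S1 → ℝ} (hm : Measurable ρ) (h0 : ∀ x, 0 ≤ ρ x) (h1 : ∀ x, ρ x ≤ 1)
    (hpos : ∀ᵐ x, 0 < ρ x) :
    ∃ hb : Equiv.Perm S1, Continuous hb ∧ Continuous (fun z => hb⁻¹ z) ∧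
      ∀ (w : Equiv.Perm S1) (D : S1 → ℝ), Sm w → Continuous D →
        (∀ x, ρ (w x) * Real.exp (LD w x) = Real.exp (D x) * ρ x) →
        ∃ F, IsLift (hb * w * hb⁻¹) F (fun z => D (hb⁻¹ z)) := by
  obtain ⟨σ, hσ⟩ : ∃ σ : ℝ → ℝ, σ = fun t : ℝ => ρ (t : S1) := ⟨_, rfl⟩
  have hσm : Measurable σ := by rw [hσ]; exact hm.comp cont_coe.measurable
  have hσ0 : ∀ t, 0 ≤ σ t := fun t => by rw [hσ]; exact h0 _
  have hσi : ∀ x y, IntervalIntegrable σ volume x y := by
    intro x y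
    refine (intervalIntegrable_const (c := (1 : ℝ))).mono_fun hσm.aestronglyMeasurable ?_
    refine Eventually.of_forall fun t => ?_
    simp only [norm_one, Real.norm_of_nonneg (hσ0 t)]
    rw [hσ]; exact h1 _
  have hσp : Function.Periodic σ 1 := fun t => by
    rw [hσ]; simp only [AddCircle.coe_add_period]
  have hσae : ∀ᵐ t : ℝ, 0 < σ t := by
    have : ∀ᵐ t ∂(volume.restrict (⋃ n : ℤ, Ioc (n : ℝ) (n + 1))), 0 < σ t := by
      rw [ae_restrict_iUnion_iff]
      intro n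
      rw [hσ]
      exact (AddCircle.measurePreserving_mk 1 (n : ℝ)).quasiMeasurePreserving.ae hpos
    rwa [iUnion_Ioc_intCast, Measure.restrict_univ] at this
  have hσpos : ∀ x y, x < y → 0 < ∫ t in x..y, σ t := by
    intro x y hxy
    rw [intervalIntegral.integral_pos_iff_support_of_nonneg_ae (Eventually.of_forall hσ0) (hσi x y)]
    refine ⟨hxy, ?_⟩
    have : (Function.support σ ∩ Ioc x y : Set ℝ) =ᵐ[volume] Ioc x y := by
      apply inter_ae_eq_right_of_ae_eq_univ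
      rw [ae_eq_univ]
      refine measure_mono_null (fun t ht => ?_) (ae_iff.1 hσae)
      have : σ t = 0 := by simpa using ht
      simp [this]
    rw [measure_congr this]
    simpa using hxy
  obtain ⟨Z, hZ⟩ : ∃ Z, Z = ∫ t in (0 : ℝ)..1, σ t := ⟨_, rfl⟩
  have hZ0 : 0 < Z := by rw [hZ]; exact hσpos 0 1 one_pos
  obtain ⟨H, hH⟩ : ∃ H : ℝ → ℝ, H = fun x => Z⁻¹ * ∫ t in (0 : ℝ)..x, σ t := ⟨_, rfl⟩
  have hHs : ∀ x y, H y - H x = Z⁻¹ * ∫ t in x..y, σ t := by
    intro x y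
    rw [hH]; simp only
    rw [← mul_sub, intervalIntegral.integral_interval_sub_left (hσi _ _) (hσi _ _)]
  have hHc : Continuous H := by
    rw [hH]; exact continuous_const.mul (intervalIntegral.continuous_primitive hσi 0)
  have hHm : StrictMono H := fun x y hxy => by
    have := mul_pos (inv_pos.2 hZ0) (hσpos x y hxy)
    rw [← hHs] at this; linarith
  have hH1 : ∀ x, H (x + 1) = H x + 1 := fun x => by
    have := hHs x (x + 1)
    rw [hσp.intervalIntegral_add_eq x 0, zero_add, ← hZ, inv_mul_cancel₀ hZ0.ne'] at this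
    linarith
  have hHn : ∀ (n : ℤ) x, H (x + n) = H x + n := by
    intro n x
    induction n using Int.induction_on with
    | zero => simp
    | succ n ih => push_cast at ih ⊢; rw [← add_assoc, hH1, ih]; ring
    | pred n ih =>
      push_cast at ih ⊢
      have := hH1 (x + (-n - 1))
      rw [show x + (-(n : ℝ) - 1) + 1 = x + -n by ring, ih] at this
      linarith
  have hH0 : H 0 = 0 := by simp [hH]
  have hHsurj : Function.Surjective H := by
    intro y
    have e1 : H (⌊y⌋ : ℝ) = ⌊y⌋ := by simpa [hH0] using hHn ⌊y⌋ 0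
    have e2 : H ((⌊y⌋ : ℝ) + 1) = ⌊y⌋ + 1 := by rw [hH1, e1]
    exact mem_range_of_exists_le_of_exists_ge hHc ⟨_, e1.le.trans (Int.floor_le y)⟩
      ⟨_, (Int.lt_floor_add_one y).le.trans e2.ge⟩
  let Hi := hHm.orderIsoOfSurjective H hHsurj
  obtain ⟨K, hK⟩ : ∃ K : ℝ → ℝ, K = Hi.symm := ⟨_, rfl⟩
  have hKc : Continuous K := by rw [hK]; exact Hi.symm.continuous
  have hHK : ∀ y, H (K y) = y := fun y => by rw [hK]; exact Hi.apply_symm_apply y
  have hKH : ∀ x, K (H x) = x := fun x => by rw [hK]; exact Hi.symm_apply_apply x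
  have hK1 : ∀ y, K (y + 1) = K y + 1 := fun y => hHm.injective (by rw [hHK, hH1, hHK])
  have p1 : Function.Periodic (fun t => ((H t : ℝ) : S1)) 1 := fun t => by
    simp only [hH1, AddCircle.coe_add_period]
  have p2 : Function.Periodic (fun t => ((K t : ℝ) : S1)) 1 := fun t => by
    simp only [hK1, AddCircle.coe_add_period]
  let hb : Equiv.Perm S1 :=
    { toFun := p1.lift
      invFun := p2.lift
      left_inv := fun z => by
        obtain ⟨x, rfl⟩ := coe_surj z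
        change ((K (H x) : ℝ) : S1) = x
        rw [hKH]
      right_inv := fun z => by
        obtain ⟨x, rfl⟩ := coe_surj z
        change ((H (K x) : ℝ) : S1) = x
        rw [hHK] }
  have b1 : ∀ x : ℝ, hb (x : S1) = ((H x : ℝ) : S1) := fun _ => rfl
  have b2 : ∀ x : ℝ, hb⁻¹ (x : S1) = ((K x : ℝ) : S1) := fun _ => rfl
  have c2 : Continuous (fun z => hb⁻¹ z) := cont_of_lift b2 hKc
  refine ⟨hb, cont_of_lift b1 hHc, c2, fun w D hw hD hρ => ?_⟩
  obtain ⟨F, hF⟩ := hw.lift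
  refine ⟨fun y => H (F (K y)), fun x => ?_, hD.comp c2, fun y => ?_⟩
  · simp only [Equiv.Perm.coe_mul, Function.comp, b2, hF.comm, b1]
  · rw [b2]
    refine deriv_ratio (H := H) (Φ := fun x => H (F x)) (σ := fun t => Z⁻¹ * σ t)
      (c := fun t : ℝ => Real.exp (D t)) (fun t => mul_nonneg (inv_pos.2 hZ0).le (hσ0 t))
      (fun x y => (hσi x y).const_mul _) (Real.continuous_exp.comp (hD.comp cont_coe))
      (fun x y => by rw [hHs, intervalIntegral.integral_const_mul]) (fun x y => ?_) hKc hHK y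
    rw [hHs, ← intervalIntegral.integral_comp_mul_deriv_of_deriv_nonneg
      (f' := fun t : ℝ => Real.exp (LD w t)) hF.contF.continuousOn (fun t _ => hF.der t)
      (fun t _ => (Real.exp_pos _).le), ← intervalIntegral.integral_const_mul]
    congr 1
    funext t
    have := hρ t
    rw [hF.comm] at this
    simp only [hσ, Function.comp]
    rw [this]; ring

/-- The properties of the final group. -/
structure Good (G : Subgroup (Equiv.Perm S1)) : Prop where
  fg : G.FG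
  sm : ∀ g ∈ G, Sm g
  fix : ∀ g ∈ G, g ≠ 1 → {x | g x = x}.Finite
  prox : ∀ V V' : Set S1, IsOpen V → IsOpen V' → V.Nonempty → V'.Nonempty →
    ∃ k ∈ G, ∀ x ∉ V', k x ∈ V
  disc : ∀ g ∈ G, g ≠ 1 → ∃ x, 1 / 8 ≤ |LD g x|
  seq : ∃ a : ℕ → Equiv.Perm S1, (∀ n, a n ∈ G) ∧ (∀ n, a n ≠ 1) ∧
    (∀ η > 0, ∀ᶠ n in atTop, ∀ x, dist (a n x) x < η) ∧
    ∃ V : Set S1, IsOpen V ∧ V.Nonempty ∧ ∀ η > 0, ∀ᶠ n in atTop, ∀ x ∈ V, |LD (a n) x| < η

theorem good_of_base {S : Set (Equiv.Perm S1)} (hB : Base S) : ∃ G, Good G := by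
  obtain ⟨z0, z1, hz⟩ := exists_pair_ne S1
  have hd : 0 < dist z1 z0 := dist_pos.2 hz.symm
  obtain ⟨ρ, D, a, m1, m2, m3, m4, d1, d2, -, d4, a1, a2, a3, a4⟩ :=
    exists_limit hB z0 (half_pos hd)
  obtain ⟨hb, c1, c2, hl⟩ := exists_conj m1 m2 m3 m4
  have hsm : ∀ g ∈ Subgroup.closure S, Sm g := fun g hg => sm_of_closure hB.symm hB.sm hg
  have hl' : ∀ w ∈ Subgroup.closure S, ∃ F, IsLift (hb * w * hb⁻¹) F (fun z => D w (hb⁻¹ z)) :=
    fun w hw => hl w (D w) (hsm w hw) (d1 w hw) (d2 w hw)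
  have hLD : ∀ w ∈ Subgroup.closure S, ∀ z, LD (hb * w * hb⁻¹) z = D w (hb⁻¹ z) := by
    intro w hw z
    obtain ⟨F, hF⟩ := hl' w hw
    rw [hF.LD_eq]
  have hmem : ∀ g, g ∈ (Subgroup.closure S).map (MulAut.conj hb).toMonoidHom ↔
      ∃ w ∈ Subgroup.closure S, hb * w * hb⁻¹ = g := fun g => by
    simp [Subgroup.mem_map]
  refine ⟨(Subgroup.closure S).map (MulAut.conj hb).toMonoidHom, ?_, fun g hg => ?_,
    fun g hg hg1 => ?_, fun V V' hV hV' nV nV' => ?_, fun g hg hg1 => ?_,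
    fun n => hb * a n * hb⁻¹, fun n => (hmem _).2 ⟨_, a1 n, rfl⟩, fun n h => a2 n ?_, ?_,
    (fun z => hb⁻¹ z) ⁻¹' {x | dist z1 z0 / 2 < dist x z0}, ?_, ⟨hb z1, ?_⟩, fun η hη => ?_⟩
  · rw [MonoidHom.map_closure]
    exact (Subgroup.fg_iff _).2 ⟨_, rfl, hB.fin.image _⟩
  · obtain ⟨w, hw, rfl⟩ := (hmem g).1 hg
    obtain ⟨F, hF⟩ := hl' w hw
    exact ⟨_, _, hF⟩
  · obtain ⟨w, hw, rfl⟩ := (hmem g).1 hg
    refine ((hB.fix w hw (by rintro rfl; simp at hg1)).image hb).subset fun x hx => ?_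
    refine ⟨hb⁻¹ x, ?_, by simp⟩
    apply hb.injective
    simpa using hx
  · obtain ⟨k, hk, H⟩ := hB.prox (hb ⁻¹' V) (hb ⁻¹' V') (hV.preimage c1) (hV'.preimage c1)
      (nV.preimage hb.surjective) (nV'.preimage hb.surjective)
    exact ⟨_, (hmem _).2 ⟨k, hk, rfl⟩, fun x hx => H (hb⁻¹ x) (by simpa using hx)⟩
  · obtain ⟨w, hw, rfl⟩ := (hmem g).1 hg
    obtain ⟨x, hx⟩ := d4 w hw (by rintro rfl; simp at hg1)
    exact ⟨hb x, by rwa [hLD w hw, inv_ap]⟩
  · simpa using h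
  · exact conj_C0 (a := fun n x => a n x) (k := hb) (k' := fun x => hb⁻¹ x) c1 (ap_inv hb) a3
  · exact (isOpen_lt continuous_const (continuous_id.dist continuous_const)).preimage c2
  · simpa using hd
  · filter_upwards [a4 η hη] with n hn x hx
    rw [hLD _ (a1 n)]
    apply hn
    simp only [mem_compl_iff, Metric.mem_ball, not_lt]
    exact le_of_lt hx

end Pool.Agent.H507Z.Circ
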