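import Mathlib

/-! Groups of `C^1` diffeomorphisms of the circle `ℝ/ℤ`: discreteness and local discreteness. -/

namespace Pool.Agent.H507Z.Circ

open Filter Set MeasureTheory

/-- The circle `ℝ/ℤ`. -/
abbrev S1 : Type := AddCircle (1 : ℝ)

/-- `F : ℝ → ℝ` is a `C^1` lift of the bijection `g` of the circle, with nowhere vanishing
derivative. -/
def IsC1Lift (g : Equiv.Perm S1) (F : ℝ → ℝ) : Prop :=
  ContDiff ℝ 1 F ∧ (∀ x, deriv F x ≠ 0) ∧ ∀ x : ℝ, g (x : S1) = ((F x : ℝ) : S1)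

/-- `g` is a `C^1` diffeomorphism of the circle. -/
def IsC1Diffeo (g : Equiv.Perm S1) : Prop := ∃ F, IsC1Lift g F

/-- `g n` tends to the identity in the `C^1` topology on (the image in the circle of) `s`:
suitable `C^1` lifts tend to the identity, and their derivatives to `1`, uniformly on `s`. -/
def C1TendstoIdOn (g : ℕ → Equiv.Perm S1) (s : Set ℝ) : Prop :=
  ∃ F : ℕ → ℝ → ℝ, (∀ n, IsC1Lift (g n) (F n)) ∧ TendstoUniformlyOn F id atTop s ∧
    TendstoUniformlyOn (fun n => deriv (F n)) (fun _ => 1) atTop s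

/-- No Borel probability measure on the circle is invariant under `G`. -/
def NonElementary (G : Subgroup (Equiv.Perm S1)) : Prop :=
  ¬ ∃ μ : Measure S1, IsProbabilityMeasure μ ∧ ∀ g ∈ G, μ.map g = μ

/-- `Λ` is a nonempty compact `G`-invariant set in which every `G`-orbit is dense. -/
def IsLimitSet (G : Subgroup (Equiv.Perm S1)) (Λ : Set S1) : Prop :=
  Λ.Nonempty ∧ IsCompact Λ ∧ (∀ g ∈ G, g '' Λ = Λ) ∧
    ∀ x ∈ Λ, Λ ⊆ closure {y | ∃ g ∈ G, g x = y}

/-- Every sequence of `G` tending to the identity in the `C^1` topology on the circle is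
eventually the identity. -/
def DiscreteC1 (G : Subgroup (Equiv.Perm S1)) : Prop :=
  ∀ g : ℕ → Equiv.Perm S1, (∀ n, g n ∈ G) → C1TendstoIdOn g univ → ∀ᶠ n in atTop, g n = 1

/-- Every sequence of `G` tending to the identity in the `C^1` topology on the arc `[a, b]` is
eventually the identity on that arc. -/
def ArcDiscreteC1 (G : Subgroup (Equiv.Perm S1)) (a b : ℝ) : Prop :=
  ∀ g : ℕ → Equiv.Perm S1, (∀ n, g n ∈ G) → C1TendstoIdOn g (Icc a b) →
    ∀ᶠ n in atTop, ∀ x ∈ Icc a b, g n (x : S1) = (x : S1)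

/-- The limit set is covered by closed arcs `[a, b]`, `a < b < a + 1`, on each of which `G` is
discrete in the `C^1` topology. -/
def LocallyDiscreteC1 (G : Subgroup (Equiv.Perm S1)) : Prop :=
  ∃ Λ, IsLimitSet G Λ ∧ ∀ z ∈ Λ, ∃ a b : ℝ, a < b ∧ b < a + 1 ∧
    (∃ x ∈ Icc a b, (x : S1) = z) ∧ ArcDiscreteC1 G a b

end Pool.Agent.H507Z.Circ
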