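import Pool.Agent.H507Z.Circ.Defs
import Pool.Agent.H507Z.Circ.Block

/-! Lifts and the logarithmic derivative cocycle. -/

namespace Pool.Agent.H507Z.Circ

open Filter Set Topology

theorem coe_eq_coe {x y : ℝ} : (x : S1) = (y : S1) ↔ ∃ n : ℤ, x - y = n := by
  rw [← sub_eq_zero, ← AddCircle.coe_sub, AddCircle.coe_eq_zero_iff]
  simp [eq_comm]

theorem coe_surj (z : S1) : ∃ x : ℝ, (x : S1) = z := QuotientAddGroup.mk_surjective z

theorem cont_coe : Continuous (fun x : ℝ => (x : S1)) := AddCircle.continuous_mk' 1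

instance : Nontrivial S1 := ⟨⟨((1 / 2 : ℝ) : S1), ((0 : ℝ) : S1), by
  rw [Ne, coe_eq_coe]
  rintro ⟨n, hn⟩
  have : (2 * n : ℝ) = 1 := by linarith
  have : (2 * n : ℤ) = 1 := by exact_mod_cast this
  omega⟩⟩

theorem lift_eventually {F F' : ℝ → ℝ} {x : ℝ} (h : ∀ y, (F y : S1) = (F' y : S1))
    (hF : ContinuousAt F x) (hF' : ContinuousAt F' x) :
    F =ᶠ[𝓝 x] fun y => F' y + (F x - F' x) := by
  have hc : ContinuousAt (fun y => F y - F' y) x := hF.sub hF'
  have := Metric.tendsto_nhds.1 hc 1 one_pos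
  filter_upwards [this] with y hy
  obtain ⟨n, hn⟩ := coe_eq_coe.1 (h y)
  obtain ⟨k, hk⟩ := coe_eq_coe.1 (h x)
  rw [hn, hk, Real.dist_eq] at hy
  have : |n - k| < 1 := by exact_mod_cast hy
  have : n = k := by have := abs_lt.1 this; omega
  subst this
  linarith

theorem lift_deriv_unique {F F' : ℝ → ℝ} {x c c' : ℝ} (h : ∀ y, (F y : S1) = (F' y : S1))
    (hF : HasDerivAt F c x) (hF' : HasDerivAt F' c' x) : c = c' := by
  have := lift_eventually h hF.continuousAt hF'.continuousAt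
  exact hF.unique ((hF'.add_const _).congr_of_eventuallyEq this)

/-- `F` is a lift of `g` with logarithmic derivative `J`. -/
structure IsLift (g : Equiv.Perm S1) (F : ℝ → ℝ) (J : S1 → ℝ) : Prop where
  comm : ∀ x : ℝ, g (x : S1) = ((F x : ℝ) : S1)
  cont : Continuous J
  der : ∀ x : ℝ, HasDerivAt F (Real.exp (J x)) x

theorem IsLift.unique {g : Equiv.Perm S1} {F F' : ℝ → ℝ} {J J' : S1 → ℝ} (h : IsLift g F J)
    (h' : IsLift g F' J') : J = J' := by
  funext z
  obtain ⟨x, rfl⟩ := coe_surj z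
  exact Real.exp_injective
    (lift_deriv_unique (fun y => (h.comm y).symm.trans (h'.comm y)) (h.der x) (h'.der x))

theorem IsLift.contF {g : Equiv.Perm S1} {F : ℝ → ℝ} {J : S1 → ℝ} (h : IsLift g F J) :
    Continuous F := continuous_iff_continuousAt.2 fun x => (h.der x).continuousAt

theorem cont_of_lift {g : S1 → S1} {F : ℝ → ℝ} (h : ∀ x : ℝ, g (x : S1) = ((F x : ℝ) : S1))
    (hF : Continuous F) : Continuous g := by
  have hq : IsQuotientMap (fun x : ℝ => (x : S1)) := QuotientAddGroup.isQuotientMap_mk _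
  rw [hq.continuous_iff]
  have : (g ∘ fun x : ℝ => (x : S1)) = fun x => ((F x : ℝ) : S1) := funext h
  rw [this]
  exact cont_coe.comp hF

theorem IsLift.contg {g : Equiv.Perm S1} {F : ℝ → ℝ} {J : S1 → ℝ} (h : IsLift g F J) :
    Continuous g := cont_of_lift h.comm h.contF

theorem IsLift.mul {g g' : Equiv.Perm S1} {F F' : ℝ → ℝ} {J J' : S1 → ℝ} (h : IsLift g F J)
    (h' : IsLift g' F' J') : IsLift (g * g') (F ∘ F') (fun z => J (g' z) + J' z) where
  comm x := by simp [h'.comm, h.comm]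
  cont := (h.cont.comp h'.contg).add h'.cont
  der x := by
    have := (h.der (F' x)).comp x (h'.der x)
    rwa [← h'.comm, ← Real.exp_add] at this

theorem isLift_one : IsLift 1 id (fun _ => 0) where
  comm x := rfl
  cont := continuous_const
  der x := by simpa using hasDerivAt_id x

theorem IsLift.isC1Lift {g : Equiv.Perm S1} {F : ℝ → ℝ} {J : S1 → ℝ} (h : IsLift g F J) :
    IsC1Lift g F := by
  have e : deriv F = fun x : ℝ => Real.exp (J x) := funext fun x => (h.der x).deriv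
  refine ⟨?_, fun x => by rw [e]; exact (Real.exp_pos _).ne', h.comm⟩
  rw [contDiff_one_iff_deriv, e]
  exact ⟨fun x => (h.der x).differentiableAt, Real.continuous_exp.comp (h.cont.comp cont_coe)⟩

/-- Orientation preserving `C^1` diffeomorphisms. -/
def Sm (g : Equiv.Perm S1) : Prop := ∃ J F, IsLift g F J

open Classical in
/-- The logarithmic derivative. -/
noncomputable def LD (g : Equiv.Perm S1) : S1 → ℝ := if h : Sm g then h.choose else 0

theorem Sm.lift {g : Equiv.Perm S1} (h : Sm g) : ∃ F, IsLift g F (LD g) := by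
  rw [LD, dif_pos h]; exact h.choose_spec

theorem IsLift.LD_eq {g : Equiv.Perm S1} {F : ℝ → ℝ} {J : S1 → ℝ} (h : IsLift g F J) :
    LD g = J := by
  obtain ⟨F', h'⟩ := Sm.lift ⟨J, F, h⟩
  exact h'.unique h

theorem Sm.cont {g : Equiv.Perm S1} (h : Sm g) : Continuous g := by
  obtain ⟨F, h⟩ := h.lift; exact h.contg

theorem Sm.contLD {g : Equiv.Perm S1} (h : Sm g) : Continuous (LD g) := by
  obtain ⟨F, h⟩ := h.lift; exact h.cont

theorem Sm.mul {g g' : Equiv.Perm S1} (h : Sm g) (h' : Sm g') : Sm (g * g') := by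
  obtain ⟨J, F, h⟩ := h
  obtain ⟨J', F', h'⟩ := h'
  exact ⟨_, _, h.mul h'⟩

theorem sm_one : Sm 1 := ⟨_, _, isLift_one⟩

theorem LD_mul {g g' : Equiv.Perm S1} (h : Sm g) (h' : Sm g') (z : S1) :
    LD (g * g') z = LD g (g' z) + LD g' z := by
  obtain ⟨F, h⟩ := h.lift
  obtain ⟨F', h'⟩ := h'.lift
  rw [(h.mul h').LD_eq]

theorem sm_of_closure {S : Set (Equiv.Perm S1)} (hS : ∀ s ∈ S, s⁻¹ ∈ S) (hsm : ∀ s ∈ S, Sm s)
    {g : Equiv.Perm S1} (hg : g ∈ Subgroup.closure S) : Sm g := by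
  induction hg using Subgroup.closure_induction_left with
  | one => exact sm_one
  | mul_left x hx y _ ih => exact (hsm x hx).mul ih
  | inv_mul_cancel x hx y _ ih => exact (hsm _ (hS x hx)).mul ih

/-- Uniform convergence to the identity survives conjugation. -/
theorem conj_C0 {ι : Type*} {l : Filter ι} {a : ι → S1 → S1} {k k' : S1 → S1}
    (hk : Continuous k) (hkk : ∀ x, k (k' x) = x)
    (ha : ∀ η > 0, ∀ᶠ i in l, ∀ x, dist (a i x) x < η) :
    ∀ η > 0, ∀ᶠ i in l, ∀ x, dist (k (a i (k' x))) x < η := by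
  intro η hη
  obtain ⟨δ, hδ, H⟩ := Metric.uniformContinuous_iff.1
    (CompactSpace.uniformContinuous_of_continuous hk) η hη
  filter_upwards [ha δ hδ] with i hi x
  have := H (hi (k' x))
  rwa [hkk] at this

/-- Convergence of a continuous cocycle survives conjugation. -/
theorem conj_C1 {ι : Type*} {l : Filter ι} {G : Subgroup (Equiv.Perm S1)}
    {D : Equiv.Perm S1 → S1 → ℝ} (hc : ∀ g ∈ G, Continuous (D g))
    (hD : ∀ g ∈ G, ∀ h ∈ G, ∀ x, D (g * h) x = D g (h x) + D h x)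
    {a : ι → Equiv.Perm S1} (haG : ∀ i, a i ∈ G) {k : Equiv.Perm S1} (hk : k ∈ G) {K : Set S1}
    (ha : ∀ η > 0, ∀ᶠ i in l, ∀ x, dist (a i x) x < η)
    (ha' : ∀ η > 0, ∀ᶠ i in l, ∀ x ∈ K, |D (a i) x| < η) :
    ∀ η > 0, ∀ᶠ i in l, ∀ x, k x ∈ K → |D (k⁻¹ * a i * k) x| < η := by
  intro η hη
  obtain ⟨δ, hδ, H⟩ := Metric.uniformContinuous_iff.1
    (CompactSpace.uniformContinuous_of_continuous (hc _ (G.inv_mem hk))) (η / 2) (by positivity)
  filter_upwards [ha δ hδ, ha' (η / 2) (by positivity)] with i h1 h2 x hx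
  have e1 : D 1 x = 0 := by
    have := hD 1 G.one_mem 1 G.one_mem x
    simp only [mul_one, Equiv.Perm.coe_one, id] at this
    linarith
  have e2 := hD k⁻¹ (G.inv_mem hk) k hk x
  rw [inv_mul_cancel, e1] at e2
  rw [hD _ (G.mul_mem (G.inv_mem hk) (haG i)) k hk, hD _ (G.inv_mem hk) _ (haG i)]
  have h3 := H (h1 (k x))
  have h4 := h2 _ hx
  rw [Real.dist_eq] at h3
  rw [abs_lt] at *
  constructor <;> linarith [h3.1, h3.2, h4.1, h4.2]

/-- The data we need from the underlying non-discrete action. -/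
structure Base (S : Set (Equiv.Perm S1)) : Prop where
  fin : S.Finite
  symm : ∀ s ∈ S, s⁻¹ ∈ S
  sm : ∀ s ∈ S, Sm s
  fix : ∀ g ∈ Subgroup.closure S, g ≠ 1 → {x | g x = x}.Finite
  prox : ∀ V V' : Set S1, IsOpen V → IsOpen V' → V.Nonempty → V'.Nonempty →
    ∃ k ∈ Subgroup.closure S, ∀ x ∉ V', k x ∈ V
  blk : ∀ r : ℕ, 1 ≤ r → ∀ η > 0, ∃ a ∈ Subgroup.closure S, a ≠ 1 ∧ (∀ x, dist (a x) x < η) ∧
    (∀ x, |LD a x| < η) ∧ ∃ f : Equiv.Perm S1 → ℝ, {g | f g ≠ 0}.Finite ∧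
      (∀ g, f g ≠ 0 → g ∈ Subgroup.closure S) ∧ (∀ g, 0 ≤ f g) ∧
      (∀ s ∈ S, ∀ g, |f (s * g) - f g| ≤ 1 / r) ∧
      (∀ g, g ≠ 1 → a * g ≠ 1 → |f (a * g) - f g| ≤ 1 / r) ∧
      (∀ w ∉ Bl S r, ∃ g, 1 / 2 ≤ |f (w * g) - f g|)

end Pool.Agent.H507Z.Circ
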