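import Pool.Agent.H507Z.Circ.Step

/-! The limit density and the new cocycle. -/

namespace Pool.Agent.H507Z.Circ

open Filter Set Topology MeasureTheory

theorem exists_seq {S : Set (Equiv.Perm S1)} (hB : Base S) (z0 : S1) {ρ0 : ℝ} (hρ0 : 0 < ρ0) :
    ∃ (r : ℕ → ℕ) (Φ φ : ℕ → S1 → ℝ) (T : ℕ → Set S1) (a : ℕ → Equiv.Perm S1),
      r 0 = 1 ∧ (∀ x, Φ 0 x = 0) ∧ (∀ m x, Φ (m + 1) x = Φ m x + φ m x) ∧
      ∀ m, Level S z0 ρ0 m (r m) (Φ m) (T m) (a m) (φ m) (r (m + 1)) (T (m + 1)) := by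
  let St := {s : ℕ × (S1 → ℝ) × Set S1 // 1 ≤ s.1 ∧ Continuous s.2.1 ∧ s.2.2.Finite}
  have h : ∀ (m : ℕ) (s : St), ∃ a φ r' T', Level S z0 ρ0 m s.1.1 s.1.2.1 s.1.2.2 a φ r' T' :=
    fun m s => exists_level hB z0 hρ0 m s.2.1 s.2.2.1 s.2.2.2
  choose a φ r' T' H using h
  let nxt : ℕ → St → St := fun m s => ⟨(r' m s, fun x => s.1.2.1 x + φ m s x, T' m s),
    le_trans (by have := s.2.1; omega) (H m s).rr, s.2.2.1.add (H m s).cont, (H m s).Tfin⟩
  let st : ℕ → St := fun m => Nat.rec ⟨(1, fun _ => 0, ∅), le_rfl, continuous_const,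
    Set.finite_empty⟩ nxt m
  exact ⟨fun m => (st m).1.1, fun m => (st m).1.2.1, fun m => φ m (st m), fun m => (st m).1.2.2,
    fun m => a m (st m), rfl, fun _ => rfl, fun _ _ => rfl, fun m => H m (st m)⟩

theorem word_bound {S : Set (Equiv.Perm S1)} {φ : S1 → ℝ} {c : ℝ} (hc : 0 ≤ c)
    (h : ∀ s ∈ S, ∀ x, |φ (s x) - φ x| ≤ c) {n : ℕ} {w : Equiv.Perm S1} (hw : w ∈ Bl S n)
    (x : S1) : |φ (w x) - φ x| ≤ n * c := by
  obtain ⟨l, ⟨h1, h2⟩, rfl⟩ := hw
  refine le_trans ?_ (mul_le_mul_of_nonneg_right (Nat.cast_le.2 h2.le) hc)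
  clear h2
  induction l with
  | nil => simp
  | cons s l ih =>
    have ih := ih fun y hy => h1 y (by simp [hy])
    have := h s (h1 s (by simp)) (l.prod x)
    simp only [List.prod_cons, Equiv.Perm.coe_mul, Function.comp, List.length_cons]
    push_cast
    rw [abs_le] at *
    constructor <;> linarith [ih.1, ih.2, this.1, this.2]

theorem exists_limit {S : Set (Equiv.Perm S1)} (hB : Base S) (z0 : S1) {ρ0 : ℝ} (hρ0 : 0 < ρ0) :
    ∃ (ρ : S1 → ℝ) (D : Equiv.Perm S1 → S1 → ℝ) (a : ℕ → Equiv.Perm S1),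
      Measurable ρ ∧ (∀ x, 0 ≤ ρ x) ∧ (∀ x, ρ x ≤ 1) ∧ (∀ᵐ x, 0 < ρ x) ∧
      (∀ w ∈ Subgroup.closure S, Continuous (D w)) ∧
      (∀ w ∈ Subgroup.closure S, ∀ x, ρ (w x) * Real.exp (LD w x) = Real.exp (D w x) * ρ x) ∧
      (∀ g ∈ Subgroup.closure S, ∀ h ∈ Subgroup.closure S, ∀ x,
        D (g * h) x = D g (h x) + D h x) ∧
      (∀ w ∈ Subgroup.closure S, w ≠ 1 → ∃ x, 1 / 8 ≤ |D w x|) ∧
      (∀ n, a n ∈ Subgroup.closure S) ∧ (∀ n, a n ≠ 1) ∧
      (∀ η > 0, ∀ᶠ n in atTop, ∀ x, dist (a n x) x < η) ∧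
      (∀ η > 0, ∀ᶠ n in atTop, ∀ x ∈ (Metric.ball z0 ρ0)ᶜ, |D (a n) x| < η) := by
  obtain ⟨r, Φ, φ, T, a, r0, Φ0, Φs, L⟩ := exists_seq hB z0 hρ0
  have hsm : ∀ g ∈ Subgroup.closure S, Sm g := fun g hg => sm_of_closure hB.symm hB.sm hg
  have hr : ∀ m i, 2 ^ i * r m ≤ r (i + m) := by
    intro m i
    induction i with
    | zero => simp
    | succ i ih =>
      have := (L (i + m)).rr
      rw [show i + 1 + m = i + m + 1 by ring, pow_succ]
      nlinarith
  have hr2 : ∀ i, 2 ^ i ≤ r i := fun i => by simpa [r0] using hr 0 i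
  have hr1 : ∀ i, 1 ≤ r i := fun i => le_trans Nat.one_le_two_pow (hr2 i)
  have hrinv : ∀ i, (1 : ℝ) / r i ≤ (1 / 2) ^ i := fun i => by
    rw [one_div_pow]
    exact one_div_le_one_div_of_le (by positivity) (by exact_mod_cast hr2 i)
  have hrmono : Monotone r := monotone_nat_of_le_succ fun m => by have := (L m).rr; omega
  have hTmono : Monotone T := monotone_nat_of_le_succ fun m => (L m).Tsub
  have hΦ : ∀ m x, Φ m x = ∑ j ∈ Finset.range m, φ j x := by
    intro m x
    induction m with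
    | zero => simp [Φ0]
    | succ m ih => rw [Φs, Finset.sum_range_succ, ih]
  have hΦc : ∀ m, Continuous (Φ m) := by
    intro m
    have : Φ m = fun x => ∑ j ∈ Finset.range m, φ j x := funext (hΦ m)
    rw [this]
    exact continuous_finsetSum _ fun j _ => (L j).cont
  have hwb : ∀ {n w}, w ∈ Bl S n → ∀ j x, |φ j (w x) - φ j x| ≤ n * (1 / r j) :=
    fun hw j x => word_bound (by positivity) (L j).gen hw x
  have hwb' : ∀ {n w}, w ∈ Bl S n → ∀ j x, ‖φ j (w x) - φ j x‖ ≤ n * (1 / 2) ^ j :=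
    fun hw j x => (hwb hw j x).trans (mul_le_mul_of_nonneg_left (hrinv j) (by positivity))
  have hgeo : ∀ n : ℕ, Summable fun j : ℕ => (n : ℝ) * (1 / 2) ^ j := fun n =>
    summable_geometric_two.mul_left _
  have hsum : ∀ w ∈ Subgroup.closure S, ∀ x, Summable fun j => φ j (w x) - φ j x := by
    intro w hw x
    obtain ⟨n, hn⟩ := exists_Bl hB.symm hw
    exact Summable.of_norm_bounded (hgeo n) fun j => hwb' hn j x
  have hsplit : ∀ w ∈ Subgroup.closure S, ∀ x m, LD w x + ∑' j, (φ j (w x) - φ j x) =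
      LD w x + Φ m (w x) - Φ m x + (φ m (w x) - φ m x) +
        ∑' j, (φ (j + (m + 1)) (w x) - φ (j + (m + 1)) x) := by
    intro w hw x m
    rw [← (hsum w hw x).sum_add_tsum_nat_add (m + 1), Finset.sum_range_succ,
      Finset.sum_sub_distrib, hΦ, hΦ]
    ring
  have hanti : ∀ x, Antitone fun m => Real.exp (Φ m x) := fun x =>
    antitone_nat_of_succ_le fun m => by
      rw [Real.exp_le_exp, Φs]; linarith [(L m).nonpos x]
  have hbdd : ∀ x, BddBelow (range fun m => Real.exp (Φ m x)) := fun x =>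
    ⟨0, by rintro _ ⟨m, rfl⟩; exact (Real.exp_pos _).le⟩
  have hlim : ∀ x, Tendsto (fun m => Real.exp (Φ m x)) atTop (𝓝 (⨅ m, Real.exp (Φ m x))) :=
    fun x => tendsto_atTop_ciInf (hanti x) (hbdd x)
  refine ⟨fun x => ⨅ m, Real.exp (Φ m x), fun w x => LD w x + ∑' j, (φ j (w x) - φ j x), a,
    ?_, fun x => ?_, fun x => ?_, ?_, fun w hw => ?_, fun w hw x => ?_, fun g hg h hh x => ?_,
    fun w hw hw1 => ?_, fun n => (L n).aG, fun n => (L n).a1, fun η hη => ?_, fun η hη => ?_⟩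
  · exact Measurable.iInf fun m => (Real.continuous_exp.comp (hΦc m)).measurable
  · exact le_ciInf fun m => (Real.exp_pos _).le
  · refine (ciInf_le (hbdd x) 0).trans ?_
    simp [Φ0]
  · have hs : ∑' m, volume {x | φ m x ≠ 0} ≠ ⊤ := by
      refine ne_top_of_le_ne_top ?_ (ENNReal.tsum_le_tsum fun m => (L m).small)
      rw [← ENNReal.ofReal_tsum_of_nonneg (fun m => by positivity) summable_geometric_two]
      exact ENNReal.ofReal_ne_top
    filter_upwards [ae_finite_setOfPred_mem hs] with x hx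
    obtain ⟨M, hM⟩ := hx.bddAbove
    have hc : ∀ m, M + 1 ≤ m → Φ m x = Φ (M + 1) x := by
      intro m hm
      induction m, hm using Nat.le_induction with
      | base => rfl
      | succ m hm ih =>
        have : φ m x = 0 := by
          by_contra hne
          have := hM (show m ∈ {i | x ∈ {x | φ i x ≠ 0}} from hne)
          omega
        rw [Φs, ih, this, add_zero]
    have : Tendsto (fun m => Real.exp (Φ m x)) atTop (𝓝 (Real.exp (Φ (M + 1) x))) := by
      refine tendsto_const_nhds.congr' ?_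
      filter_upwards [eventually_ge_atTop (M + 1)] with m hm
      rw [hc m hm]
    rw [tendsto_nhds_unique (hlim x) this]
    exact Real.exp_pos _
  · obtain ⟨n, hn⟩ := exists_Bl hB.symm hw
    refine (hsm w hw).contLD.add (continuous_tsum (fun j => ?_) (hgeo n) fun j x => hwb' hn j x)
    exact ((L j).cont.comp (hsm w hw).cont).sub (L j).cont
  · have t1 := (Real.continuous_exp.tendsto _).comp (hsum w hw x).hasSum.tendsto_sum_nat
    have t2 := t1.mul (hlim x)
    have t3 : Tendsto (fun m => Real.exp (Φ m (w x))) atTop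
        (𝓝 (Real.exp (∑' j, (φ j (w x) - φ j x)) * ⨅ m, Real.exp (Φ m x))) := by
      refine t2.congr fun m => ?_
      simp only [Function.comp]
      rw [← Real.exp_add, Finset.sum_sub_distrib, hΦ, hΦ]
      congr 1; ring
    simp only
    rw [tendsto_nhds_unique (hlim (w x)) t3, Real.exp_add]
    ring
  · simp only
    rw [LD_mul (hsm g hg) (hsm h hh)]
    have := (hsum g hg (h x)).tsum_add (hsum h hh x)
    simp only [sub_add_sub_cancel] at this
    simp only [Equiv.Perm.coe_mul, Function.comp]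
    rw [this]; ring
  · obtain ⟨n, hn⟩ := exists_Bl hB.symm hw
    have hex : ∃ m, w ∈ Bl S (r m) :=
      ⟨n, Bl_mono ((Nat.lt_two_pow_self).le.trans (hr2 n)) hn⟩
    classical
    have h0 : Nat.find hex ≠ 0 := by
      intro e
      have := Nat.find_spec hex
      rw [e, r0] at this
      exact hw1 (Bl_one this)
    obtain ⟨m, hm⟩ := Nat.exists_eq_succ_of_ne_zero h0
    have h1 : w ∈ Bl S (r (m + 1)) := by have := Nat.find_spec hex; rwa [hm] at this
    have h2 : w ∉ Bl S (r m) := Nat.find_min hex (by omega)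
    obtain ⟨x, hx, x', hx', H⟩ := (L m).osc w h1 h2
    have hz : ∀ y ∈ T (m + 1), ∑' j, (φ (j + (m + 1)) (w y) - φ (j + (m + 1)) y) = 0 := by
      intro y hy
      have : ∀ j, φ (j + (m + 1)) (w y) - φ (j + (m + 1)) y = 0 := fun j =>
        (L (j + (m + 1))).test w (Bl_mono (hrmono (by omega)) h1) y (hTmono (by omega) hy)
      simp [this]
    by_contra hc
    push Not at hc
    have k1 := hc x
    have k2 := hc x'
    rw [hsplit w hw _ m, hz _ hx, add_zero] at k1
    rw [hsplit w hw _ m, hz _ hx', add_zero] at k2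
    rw [abs_lt] at k1 k2
    rw [le_abs] at H
    rcases H with H | H <;> linarith [k1.1, k1.2, k2.1, k2.2]
  · have := (tendsto_pow_atTop_nhds_zero_of_lt_one (r := (1 / 2 : ℝ)) (by norm_num)
      (by norm_num)).eventually (gt_mem_nhds hη)
    filter_upwards [this] with n hn x using ((L n).aC0 x).trans hn
  · have := (tendsto_pow_atTop_nhds_zero_of_lt_one (r := (1 / 2 : ℝ)) (by norm_num)
      (by norm_num)).eventually (gt_mem_nhds (show (0 : ℝ) < η / 4 by positivity))
    filter_upwards [this] with n hn x hx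
    rw [hsplit _ (L n).aG x n]
    have k1 := (L n).aC1 x
    have k2 := ((L n).aoff x hx).trans (hrinv n)
    obtain ⟨N, hN, hN'⟩ := (L n).alen
    have k3 : ‖∑' j, (φ (j + (n + 1)) (a n x) - φ (j + (n + 1)) x)‖ ≤ (1 / 2) ^ n * 2 := by
      refine tsum_of_norm_bounded (hasSum_geometric_two.mul_left ((1 / 2 : ℝ) ^ n)) fun j => ?_
      refine (hwb hN _ x).trans ?_
      have e1 : (2 : ℝ) ^ j * r (n + 1) ≤ r (j + (n + 1)) := by exact_mod_cast hr (n + 1) j
      have e2 : (N : ℝ) * 2 ^ n ≤ r (n + 1) := by exact_mod_cast hN'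
      have e3 : (0 : ℝ) < r (j + (n + 1)) := by exact_mod_cast hr1 _
      rw [mul_one_div, one_div_pow, one_div_pow, div_mul_div_comm, one_mul,
        div_le_div_iff₀ e3 (by positivity)]
      calc (N : ℝ) * (2 ^ n * 2 ^ j) = 2 ^ j * (N * 2 ^ n) := by ring
        _ ≤ 2 ^ j * r (n + 1) := by gcongr
        _ ≤ _ := by linarith
    rw [Real.norm_eq_abs] at k3
    rw [abs_le] at k2 k3
    rw [abs_lt] at k1 ⊢
    constructor <;> linarith [k1.1, k1.2, k2.1, k2.2, k3.1, k3.2]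

end Pool.Agent.H507Z.Circ
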