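import Pool.Agent.H507Z.Circ.Conj

/-! From the properties of the final group to the statement. -/

namespace Pool.Agent.H507Z.Circ

open Filter Set Topology MeasureTheory

theorem Good.nonElementary {G : Subgroup (Equiv.Perm S1)} (h : Good G) : NonElementary G := by
  rintro ⟨μ, hμ, hinv⟩
  have key : ∀ V : Set S1, IsOpen V → V.Nonempty → 1 / 2 ≤ μ.real V := by
    intro V hV nV
    obtain ⟨k, hk, H⟩ := h.prox V V hV hV nV nV
    have e : μ (k ⁻¹' V) = μ V := by
      rw [← Measure.map_apply (h.sm k hk).cont.measurable hV.measurableSet, hinv k hk]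
    have e' : μ.real (k ⁻¹' V) = μ.real V := by simp only [Measure.real, e]
    have h1 : μ.real Vᶜ ≤ μ.real (k ⁻¹' V) := measureReal_mono fun x hx => H x hx
    have h2 := probReal_add_probReal_compl (μ := μ) hV.measurableSet
    linarith
  have hinf : (univ : Set S1).Infinite := open_infinite isOpen_univ univ_nonempty
  obtain ⟨s, -, hs⟩ := hinf.exists_subset_card_eq 3
  obtain ⟨U, hU, hd⟩ := s.finite_toSet.t2_separation
  have h1 := measureReal_biUnion_finset (μ := μ) hd fun b _ => (hU b).2.measurableSet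
  have h2 : μ.real (⋃ b ∈ s, U b) ≤ 1 := measureReal_le_one
  have h3 : ∑ b ∈ s, (1 / 2 : ℝ) ≤ ∑ b ∈ s, μ.real (U b) :=
    Finset.sum_le_sum fun b _ => key _ (hU b).2 ⟨b, (hU b).1⟩
  rw [Finset.sum_const, hs] at h3
  norm_num at h3
  linarith

theorem Good.limitSet {G : Subgroup (Equiv.Perm S1)} (h : Good G) : IsLimitSet G univ := by
  refine ⟨univ_nonempty, isCompact_univ, fun g _ => image_univ_of_surjective g.surjective,
    fun x _ y _ => ?_⟩
  rw [mem_closure_iff]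
  intro V hV hy
  obtain ⟨z, hz⟩ := exists_ne x
  obtain ⟨k, hk, H⟩ := h.prox V {x}ᶜ hV isOpen_compl_singleton ⟨y, hy⟩ ⟨z, hz⟩
  exact ⟨k x, H x (by simp), k, hk, rfl⟩

theorem Good.discrete {G : Subgroup (Equiv.Perm S1)} (h : Good G) : DiscreteC1 G := by
  rintro g hg ⟨F, hF, -, hF'⟩
  obtain ⟨δ, hδ, H⟩ := Metric.continuousAt_iff.1 (Real.continuousAt_log one_ne_zero) (1 / 8)
    (by norm_num)
  filter_upwards [Metric.tendstoUniformlyOn_iff.1 hF' δ hδ] with n hn
  by_contra hne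
  obtain ⟨z, hz⟩ := h.disc _ (hg n) hne
  obtain ⟨x, rfl⟩ := coe_surj z
  obtain ⟨F', hl⟩ := (h.sm _ (hg n)).lift
  have e : deriv (F n) x = Real.exp (LD (g n) x) :=
    lift_deriv_unique (fun y => ((hF n).2.2 y).symm.trans (hl.comm y))
      (((hF n).1.differentiable one_ne_zero x).hasDerivAt) (hl.der x)
  have h1 := hn x (mem_univ x)
  rw [e, dist_comm] at h1
  have := H h1
  rw [Real.log_exp, Real.log_one, Real.dist_eq, sub_zero] at this
  linarith

theorem IsLift.normalize {g : Equiv.Perm S1} (h : Sm g) (a : ℝ) :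
    ∃ F, IsLift g F (LD g) ∧ |F a - a| = dist (g (a : S1)) (a : S1) := by
  obtain ⟨F, hF⟩ := h.lift
  refine ⟨fun x => F x - round (F a - a), ⟨fun x => ?_, hF.cont, fun x => (hF.der x).sub_const _⟩, ?_⟩
  · rw [hF.comm, coe_eq_coe]
    exact ⟨round (F a - a), by ring⟩
  · rw [hF.comm, dist_eq_norm, ← AddCircle.coe_sub, UnitAddCircle.norm_eq]
    congr 1; ring

theorem Good.arcs {G : Subgroup (Equiv.Perm S1)} (h : Good G) {a b : ℝ} (hab : a < b)
    (hba : b < a + 1) : ∃ g : ℕ → Equiv.Perm S1, (∀ n, g n ∈ G) ∧ C1TendstoIdOn g (Icc a b) ∧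
      ∀ n, {z | g n z = z}.Finite := by
  obtain ⟨u, u1, u2, u3, V, hV, nV, u4⟩ := h.seq
  have hc : IsCompact ((fun x : ℝ => (x : S1)) '' Icc a b) := isCompact_Icc.image cont_coe
  obtain ⟨k, hk, H⟩ := h.prox V ((fun x : ℝ => (x : S1)) '' Icc a b)ᶜ hV hc.isClosed.isOpen_compl nV
    ⟨(((b + a + 1) / 2 : ℝ) : S1), by
      rintro ⟨x, hx, e⟩
      obtain ⟨n, hn⟩ := coe_eq_coe.1 e.symm
      have h1 : (0 : ℝ) < n := by linarith [hx.2]
      have h2 : (n : ℝ) < 1 := by linarith [hx.1]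
      have h1 : 0 < n := by exact_mod_cast h1
      have h2 : n < 1 := by exact_mod_cast h2
      omega⟩
  have hG : ∀ n, k⁻¹ * u n * k ∈ G := fun n => G.mul_mem (G.mul_mem (G.inv_mem hk) (u1 n)) hk
  have c0 := conj_C0 (a := fun n x => u n x) (k := fun x => k⁻¹ x) (k' := k)
    (h.sm _ (G.inv_mem hk)).cont (inv_ap k) u3
  have c1 := conj_C1 (D := LD) (fun g hg => (h.sm g hg).contLD)
    (fun g hg g' hg' => LD_mul (h.sm g hg) (h.sm g' hg')) u1 hk u3 u4
  choose F hF hFa using fun n => IsLift.normalize (h.sm _ (hG n)) a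
  have c2 : ∀ η > 0, ∀ᶠ n in atTop, ∀ x ∈ Icc a b,
      |Real.exp (LD (k⁻¹ * u n * k) (x : S1)) - 1| < η := by
    intro η hη
    obtain ⟨δ, hδ, H'⟩ := Metric.continuousAt_iff.1 (Real.continuous_exp.continuousAt (x := 0)) η hη
    filter_upwards [c1 δ hδ] with n hn x hx
    have := H' (x := LD (k⁻¹ * u n * k) (x : S1)) (by
      rw [Real.dist_eq, sub_zero]
      exact hn _ (H _ (not_not.2 ⟨x, hx, rfl⟩)))
    rwa [Real.exp_zero, Real.dist_eq] at this
  refine ⟨fun n => k⁻¹ * u n * k, hG, ⟨F, fun n => (hF n).isC1Lift, ?_, ?_⟩, fun n =>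
    h.fix _ (hG n) fun e => u2 n (by
      have : u n = k * (k⁻¹ * u n * k) * k⁻¹ := by group
      rw [this, show k⁻¹ * u n * k = 1 from e]; simp)⟩
  · rw [Metric.tendstoUniformlyOn_iff]
    intro ε hε
    filter_upwards [c0 (ε / 2) (by positivity), c2 (ε / 2) (by positivity)] with n h1 h2 x hx
    have m := Convex.norm_image_sub_le_of_norm_hasDerivWithin_le (f := fun y => F n y - y)
      (f' := fun y : ℝ => Real.exp (LD (k⁻¹ * u n * k) (y : S1)) - 1) (C := ε / 2)
      (fun y _ => (((hF n).der y).sub (hasDerivAt_id y)).hasDerivWithinAt)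
      (fun y hy => (h2 y hy).le) (convex_Icc a b) (left_mem_Icc.2 hab.le) hx
    have m2 : ‖x - a‖ ≤ 1 := by
      rw [Real.norm_of_nonneg (by linarith [hx.1])]; linarith [hx.2]
    have m3 : ‖F n x - x - (F n a - a)‖ ≤ ε / 2 :=
      m.trans (mul_le_of_le_one_right (by positivity) m2)
    have m4 : |F n a - a| < ε / 2 := by rw [hFa]; exact h1 a
    rw [Real.norm_eq_abs, abs_le] at m3
    rw [abs_lt] at m4
    rw [Real.dist_eq, abs_lt, id]
    constructor <;> linarith [m3.1, m3.2, m4.1, m4.2]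
  · rw [Metric.tendstoUniformlyOn_iff]
    intro ε hε
    filter_upwards [c2 ε hε] with n h2 x hx
    rw [((hF n).der x).deriv, dist_comm, Real.dist_eq]
    exact h2 x hx

theorem Good.not_locally {G : Subgroup (Equiv.Perm S1)} (h : Good G) : ¬ LocallyDiscreteC1 G := by
  rintro ⟨Λ, ⟨⟨z, hz⟩, -⟩, H⟩
  obtain ⟨a, b, hab, hba, -, hd⟩ := H z hz
  obtain ⟨g, g1, g2, g3⟩ := h.arcs hab hba
  obtain ⟨n, hn⟩ := (hd g g1 g2).exists
  have hinj : InjOn (fun x : ℝ => (x : S1)) (Icc a b) := by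
    intro x hx y hy e
    obtain ⟨m, hm⟩ := coe_eq_coe.1 e
    have h1 : (-1 : ℝ) < m := by linarith [hx.1, hy.2]
    have h2 : (m : ℝ) < 1 := by linarith [hx.2, hy.1]
    have h1 : -1 < m := by exact_mod_cast h1
    have h2 : m < 1 := by exact_mod_cast h2
    have : m = 0 := by omega
    subst this
    simpa [sub_eq_zero] using hm
  refine (Set.Icc_infinite hab).image hinj ((g3 n).subset ?_)
  rintro _ ⟨x, hx, rfl⟩
  exact hn x hx

theorem main_of_base {S : Set (Equiv.Perm S1)} (hB : Base S) :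
    ∃ G : Subgroup (Equiv.Perm S1), G.FG ∧ (∀ g ∈ G, IsC1Diffeo g) ∧ NonElementary G ∧
      IsLimitSet G univ ∧ DiscreteC1 G ∧ ¬ LocallyDiscreteC1 G ∧
      ∀ a b : ℝ, a < b → b < a + 1 → ∃ g : ℕ → Equiv.Perm S1, (∀ n, g n ∈ G) ∧
        C1TendstoIdOn g (Icc a b) ∧ ∀ n, {z | g n z = z}.Finite := by
  obtain ⟨G, h⟩ := good_of_base hB
  refine ⟨G, h.fg, fun g hg => ?_, h.nonElementary, h.limitSet, h.discrete, h.not_locally,
    fun a b => h.arcs⟩
  obtain ⟨F, hF⟩ := (h.sm g hg).lift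
  exact ⟨F, hF.isC1Lift⟩

end Pool.Agent.H507Z.Circ
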