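import Pool.Agent.H507Z.Circ.Step

/-! Moebius maps of the circle. -/

namespace Pool.Agent.H507Z.Circ

open Filter Set Topology Complex ComplexConjugate

/-- The standard embedding of the circle in the plane. -/
noncomputable def cc (x : S1) : ℂ := (AddCircle.toCircle x : ℂ)

theorem cc_norm (x : S1) : ‖cc x‖ = 1 := Circle.norm_coe _

theorem cc_coe (t : ℝ) : cc (t : S1) = exp ((2 * Real.pi * t : ℝ) * I) := by
  rw [cc, AddCircle.toCircle_apply_mk, Circle.coe_exp]; simp

theorem cc_inj : Function.Injective cc := fun _ _ h =>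
  AddCircle.injective_toCircle one_ne_zero (Circle.ext h)

theorem cc_cont : Continuous cc := continuous_subtype_val.comp AddCircle.continuous_toCircle

theorem cc_ind : IsInducing cc := (cc_cont.isClosedEmbedding cc_inj).isInducing

theorem cc_mul_conj (x : S1) : cc x * conj (cc x) = 1 := by
  rw [mul_conj, normSq_eq_norm_sq, cc_norm]; simp

theorem den_ne {α β : ℂ} (h : ‖β‖ < ‖α‖) (x : S1) : conj β * cc x + conj α ≠ 0 := by
  intro e
  have : conj α = -(conj β * cc x) := by linear_combination e
  have := congrArg norm this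
  rw [norm_neg, norm_mul, cc_norm, RCLike.norm_conj, RCLike.norm_conj] at this
  linarith

/-- `g` is the Moebius map with coefficients `α`, `β`. -/
def IsMob (g : S1 → S1) (α β : ℂ) : Prop :=
  ‖β‖ < ‖α‖ ∧ ∀ x, cc (g x) * (conj β * cc x + conj α) = α * cc x + β

theorem IsMob.eq {g : S1 → S1} {α β : ℂ} (h : IsMob g α β) (x : S1) :
    cc (g x) = (α * cc x + β) / (conj β * cc x + conj α) := by
  rw [eq_div_iff (den_ne h.1 x)]; exact h.2 x

theorem IsMob.unique {g g' : S1 → S1} {α β : ℂ} (h : IsMob g α β) (h' : IsMob g' α β) :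
    g = g' := funext fun x => cc_inj (by rw [h.eq, h'.eq])

theorem IsMob.comp {g g' : S1 → S1} {α β α' β' : ℂ} (h : IsMob g α β) (h' : IsMob g' α' β') :
    IsMob (g ∘ g') (α * α' + β * conj β') (α * β' + β * conj α') := by
  refine ⟨?_, fun x => ?_⟩
  · have h1 : normSq β < normSq α := by
      rw [normSq_eq_norm_sq, normSq_eq_norm_sq]; have := h.1; gcongr
    have h2 : normSq β' < normSq α' := by
      rw [normSq_eq_norm_sq, normSq_eq_norm_sq]; have := h'.1; gcongr
    have : normSq (α * α' + β * conj β') - normSq (α * β' + β * conj α') =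
        (normSq α - normSq β) * (normSq α' - normSq β') := by
      simp [normSq_apply]; ring
    have h3 : normSq (α * β' + β * conj α') < normSq (α * α' + β * conj β') := by
      have := mul_pos (sub_pos.2 h1) (sub_pos.2 h2); linarith
    rw [normSq_eq_norm_sq, normSq_eq_norm_sq] at h3
    exact lt_of_pow_lt_pow_left₀ 2 (norm_nonneg _) h3
  · have e1 := h.2 (g' x)
    have e2 := h'.2 x
    simp only [Function.comp, map_add, map_mul, conj_conj]
    linear_combination (conj β' * cc x + conj α') * e1 + (α - cc (g (g' x)) * conj β) * e2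

theorem IsMob.left_inv {g g' : S1 → S1} {α β : ℂ} (h : IsMob g α β)
    (h' : IsMob g' (conj α) (-β)) (x : S1) : g' (g x) = x := by
  apply cc_inj
  have e1 := h.2 x
  have e2 := h'.2 (g x)
  apply mul_right_cancel₀ (den_ne h'.1 (g x))
  rw [e2]
  simp only [map_neg, conj_conj]
  linear_combination e1

/-- The lift of a Moebius map. -/
noncomputable def Fm (α β : ℂ) (t : ℝ) : ℝ :=
  t + arg α / Real.pi + arg (1 + β / α * conj (cc t)) / Real.pi

/-- Its logarithmic derivative. -/
noncomputable def Jm (α β : ℂ) (x : S1) : ℝ :=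
  Real.log ((1 - normSq (β / α)) / normSq (1 + β / α * conj (cc x)))

theorem exp_arg2 {w : ℂ} : exp ((2 * arg w : ℝ) * I) * conj w = w := by
  have h := norm_mul_exp_arg_mul_I w
  have h2 : conj w = ‖w‖ * exp (-(arg w * I)) := by
    conv_lhs => rw [← h]
    rw [map_mul, ← exp_conj]; simp
  rw [h2]
  conv_rhs => rw [← h]
  rw [mul_left_comm, ← exp_add]
  congr 2; push_cast; ring

theorem xi_small {α β : ℂ} (h : ‖β‖ < ‖α‖) (x : S1) : ‖β / α * conj (cc x)‖ < 1 := by
  rw [norm_mul, RCLike.norm_conj, cc_norm, mul_one, norm_div, div_lt_one (by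
    linarith [norm_nonneg β])]
  exact h

theorem xi_slit {α β : ℂ} (h : ‖β‖ < ‖α‖) (x : S1) : 1 + β / α * conj (cc x) ∈ slitPlane :=
  mem_slitPlane_of_norm_lt_one (xi_small h x)

theorem Fm_eq {α β : ℂ} (h : ‖β‖ < ‖α‖) (t : ℝ) :
    cc (Fm α β t : ℝ) * (conj β * cc t + conj α) = α * cc t + β := by
  have hα : α ≠ 0 := by rintro rfl; simp at h; linarith [norm_nonneg β]
  have hα' : conj α ≠ 0 := by simpa using hα
  have e : cc (Fm α β t : ℝ) = cc t * exp ((2 * arg α : ℝ) * I) *
      exp ((2 * arg (1 + β / α * conj (cc t)) : ℝ) * I) := by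
    rw [cc_coe (Fm α β t), cc_coe t, ← exp_add, ← exp_add, ← cc_coe t, Fm]
    congr 1
    have : (Real.pi : ℂ) ≠ 0 := by simp
    push_cast; field_simp
  have e1 := exp_arg2 (w := α)
  have e2 := exp_arg2 (w := 1 + β / α * conj (cc t))
  have e3 := cc_mul_conj t
  have e4 : conj β * cc t + conj α = conj α * conj (1 + β / α * conj (cc t)) := by
    simp only [map_add, map_mul, map_one, map_div₀, conj_conj]; field_simp; ring
  rw [e, e4]
  have e5 : α * (β / α) = β := by field_simp
  linear_combination (cc t * exp ((2 * arg (1 + β / α * conj (cc t)) : ℝ) * I) *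
    conj (1 + β / α * conj (cc t))) * e1 + cc t * α * e2 + (cc t * conj (cc t)) * e5 + β * e3

theorem Fm_deriv {α β : ℂ} (h : ‖β‖ < ‖α‖) (t : ℝ) :
    HasDerivAt (Fm α β) (Real.exp (Jm α β t)) t := by
  have e0 : ∀ s : ℝ, conj (cc s) = exp (-(2 * Real.pi * I) * s) := fun s => by
    rw [cc_coe, ← exp_conj, map_mul, conj_ofReal, conj_I]; congr 1; push_cast; ring
  have d1 : HasDerivAt (fun s : ℝ => 1 + β / α * conj (cc s))
      (β / α * (conj (cc t) * (-(2 * Real.pi * I)))) t := by
    simp only [e0]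
    have := (((hasDerivAt_id (t : ℂ)).const_mul (-(2 * Real.pi * I))).cexp.const_mul
      (β / α)).const_add 1
    simpa using this.comp_ofReal
  have d2 := imCLM.hasFDerivAt.comp_hasDerivAt t (d1.clog_real (xi_slit h t))
  have d3 := ((hasDerivAt_id t).add_const (arg α / Real.pi)).add (d2.div_const Real.pi)
  have hs := xi_small h (t : S1)
  have hn : normSq (β / α) = normSq (β / α * conj (cc t)) := by
    rw [normSq_mul, normSq_conj, normSq_eq_norm_sq (cc t), cc_norm]; simp
  have hne := slitPlane_ne_zero (xi_slit h (t : S1))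
  rw [Jm, hn]
  rw [← mul_assoc] at d3
  generalize β / α * conj (cc t) = u at hs hne d3 ⊢
  have h1 : normSq u < 1 := by rw [normSq_eq_norm_sq]; nlinarith [norm_nonneg u]
  have h2 : 0 < normSq (1 + u) := normSq_pos.2 hne
  rw [Real.exp_log (div_pos (by linarith) h2)]
  have ef : Fm α β = ((fun x => id x + α.arg / Real.pi) + fun x =>
      (imCLM ∘ fun t : ℝ => log (1 + β / α * conj (cc t))) x / Real.pi) := by
    funext s; simp [Fm, log_im]
  have ed : (1 - normSq u) / normSq (1 + u) =
      1 + imCLM (u * -(2 * Real.pi * I) / (1 + u)) / Real.pi := by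
    have hp := Real.pi_pos
    simp only [imCLM_apply, div_im]
    field_simp
    simp [normSq_apply]; ring
  rw [ef, ed]
  exact d3

theorem Jm_cont {X : Type*} [TopologicalSpace X] {α β : X → ℂ} {z : X → S1} (hα : Continuous α)
    (hβ : Continuous β) (hz : Continuous z) (h : ∀ x, ‖β x‖ < ‖α x‖) :
    Continuous fun x => Jm (α x) (β x) (z x) := by
  have h0 : ∀ x, α x ≠ 0 := fun x e => by have := h x; rw [e] at this; simp at this; linarith [norm_nonneg (β x)]
  have c1 : Continuous fun x => β x / α x := hβ.div hα h0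
  have c2 : Continuous fun x => 1 + β x / α x * conj (cc (z x)) :=
    continuous_const.add (c1.mul (continuous_conj.comp (cc_cont.comp hz)))
  have h2 : ∀ x, 0 < normSq (1 + β x / α x * conj (cc (z x))) := fun x =>
    normSq_pos.2 (slitPlane_ne_zero (xi_slit (h x) _))
  have h1 : ∀ x, normSq (β x / α x) < 1 := fun x => by
    have : ‖β x / α x‖ < 1 := by
      rw [norm_div, div_lt_one (norm_pos_iff.2 (h0 x))]; exact h x
    rw [normSq_eq_norm_sq]; nlinarith [norm_nonneg (β x / α x)]
  refine Continuous.log ((continuous_const.sub (continuous_normSq.comp c1)).div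
    (continuous_normSq.comp c2) fun x => (h2 x).ne') fun x => ?_
  exact (div_pos (by linarith [h1 x]) (h2 x)).ne'

theorem IsMob.isLift {g : Equiv.Perm S1} {α β : ℂ} (h : IsMob g α β) :
    IsLift g (Fm α β) (Jm α β) where
  comm x := cc_inj (mul_right_cancel₀ (den_ne h.1 x) (by rw [h.2, Fm_eq h.1]))
  cont := Jm_cont continuous_const continuous_const continuous_id fun _ => h.1
  der := Fm_deriv h.1

theorem exists_mobFun {α β : ℂ} (h : ‖β‖ < ‖α‖) : ∃ g : S1 → S1, IsMob g α β := by
  have p : Function.Periodic (fun t => ((Fm α β t : ℝ) : S1)) 1 := fun t => by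
    have : Fm α β (t + 1) = Fm α β t + 1 := by
      simp only [Fm, AddCircle.coe_add_period]; ring
    simp only [this, AddCircle.coe_add_period]
  refine ⟨p.lift, h, fun x => ?_⟩
  obtain ⟨t, rfl⟩ := coe_surj x
  exact Fm_eq h t

theorem exists_mob {α β : ℂ} (h : ‖β‖ < ‖α‖) : ∃ g : Equiv.Perm S1, IsMob g α β := by
  obtain ⟨g, hg⟩ := exists_mobFun h
  obtain ⟨g', hg'⟩ := exists_mobFun (α := conj α) (β := -β) (by simpa using h)
  exact ⟨⟨g, g', hg.left_inv hg', hg'.left_inv (by simpa using hg)⟩, hg⟩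

/-- The group of Moebius maps. -/
def MobG : Subgroup (Equiv.Perm S1) where
  carrier := {g | ∃ α β, IsMob g α β}
  one_mem' := ⟨1, 0, by simp, fun x => by simp⟩
  mul_mem' := fun ⟨_, _, h⟩ ⟨_, _, h'⟩ => ⟨_, _, h.comp h'⟩
  inv_mem' := by
    rintro g ⟨α, β, h⟩
    refine ⟨conj α, -β, by simpa using h.1, fun x => ?_⟩
    have e := h.2 (g⁻¹ x)
    rw [ap_inv] at e
    simp only [map_neg, conj_conj]
    linear_combination -e

theorem MobG_sm {g : Equiv.Perm S1} (h : g ∈ MobG) : Sm g := by
  obtain ⟨α, β, h⟩ := h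
  exact ⟨_, _, h.isLift⟩

theorem MobG_fix {g : Equiv.Perm S1} (h : g ∈ MobG) (h1 : g ≠ 1) : {x | g x = x}.Finite := by
  obtain ⟨α, β, h⟩ := h
  have hp : (Polynomial.C (conj β) * Polynomial.X ^ 2 + Polynomial.C (conj α - α) * Polynomial.X +
      Polynomial.C (-β) : Polynomial ℂ) ≠ 0 := by
    intro e
    have e0 := congrArg (fun p => Polynomial.coeff p 0) e
    have e1 := congrArg (fun p => Polynomial.coeff p 1) e
    simp [Polynomial.coeff_X, Polynomial.coeff_C] at e0 e1
    apply h1
    ext x
    apply cc_inj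
    apply mul_right_cancel₀ (den_ne h.1 x)
    rw [h.2, e0]
    simp only [Equiv.Perm.coe_one, id, map_zero]
    linear_combination (-cc x) * e1
  refine ((Polynomial.finite_setOfPred_isRoot hp).preimage cc_inj.injOn).subset fun x hx => ?_
  have e := h.2 x
  rw [show g x = x from hx] at e
  simp only [mem_preimage, mem_ofPred_eq, Polynomial.IsRoot, Polynomial.eval_add,
    Polynomial.eval_mul, Polynomial.eval_C, Polynomial.eval_pow, Polynomial.eval_X]
  linear_combination e

end Pool.Agent.H507Z.Circ
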