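import Pool.Agent.H507Z.Circ.Mob

/-! Parabolic one-parameter groups and the base group. -/

namespace Pool.Agent.H507Z.Circ

open Filter Set Topology Complex ComplexConjugate

theorem par_lt (y : S1) (τ : ℝ) : ‖-(I * τ * cc y)‖ < ‖1 + I * τ‖ := by
  apply lt_of_pow_lt_pow_left₀ 2 (norm_nonneg _)
  rw [norm_neg, norm_mul, cc_norm, mul_one, ← normSq_eq_norm_sq, ← normSq_eq_norm_sq]
  simp [normSq_apply]

/-- The parabolic one-parameter group fixing `y`. -/
noncomputable def P (y : S1) (τ : ℝ) : Equiv.Perm S1 := (exists_mob (par_lt y τ)).choose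

theorem P_mob (y : S1) (τ : ℝ) : IsMob (P y τ) (1 + I * τ) (-(I * τ * cc y)) :=
  (exists_mob (par_lt y τ)).choose_spec

theorem P_mem (y : S1) (τ : ℝ) : P y τ ∈ MobG := ⟨_, _, P_mob y τ⟩

theorem P_add (y : S1) (τ σ : ℝ) : P y (τ + σ) = P y τ * P y σ := by
  apply Equiv.coe_fn_injective
  apply (P_mob y (τ + σ)).unique
  have h := (P_mob y τ).comp (P_mob y σ)
  have e := cc_mul_conj y
  have e1 : (1 + I * τ) * (1 + I * σ) + -(I * τ * cc y) * conj (-(I * σ * cc y)) =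
      1 + I * ((τ + σ : ℝ) : ℂ) := by
    simp only [map_neg, map_mul, conj_I, conj_ofReal]
    push_cast
    linear_combination (-(I * I * τ * σ)) * e
  have e2 : (1 + I * τ) * -(I * σ * cc y) + -(I * τ * cc y) * conj (1 + I * σ) =
      -(I * ((τ + σ : ℝ) : ℂ) * cc y) := by
    simp only [map_add, map_one, map_mul, conj_I, conj_ofReal]
    push_cast
    ring
  rw [e1, e2] at h
  exact h

theorem P_zero (y : S1) : P y 0 = 1 := by
  have := P_add y 0 0
  rw [add_zero] at this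
  exact left_eq_mul.1 this

theorem P_neg (y : S1) (τ : ℝ) : P y (-τ) = (P y τ)⁻¹ := by
  rw [eq_inv_iff_mul_eq_one, ← P_add, neg_add_cancel, P_zero]

theorem P_zpow (y : S1) (τ : ℝ) (n : ℤ) : P y τ ^ n = P y (n * τ) := by
  induction n using Int.induction_on with
  | zero => simp [P_zero]
  | succ n ih => rw [zpow_add_one, ih, ← P_add]; congr 1; push_cast; ring
  | pred n ih => rw [zpow_sub_one, ih, ← P_neg, ← P_add]; congr 1; push_cast; ring

theorem P_trans (y : S1) (τ : ℝ) (x : S1) :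
    (cc (P y τ x) - cc y) * (1 + I * τ * conj (cc y) * (cc x - cc y)) = cc x - cc y := by
  have h := (P_mob y τ).2 x
  have e := cc_mul_conj y
  simp only [map_neg, map_add, map_one, map_mul, conj_I, conj_ofReal] at h
  linear_combination h - (I * τ * (cc (P y τ x) - cc y) + I * τ * cc x) * e

theorem P_ne_one (y : S1) {τ : ℝ} (hτ : τ ≠ 0) : P y τ ≠ 1 := by
  intro h
  obtain ⟨x, hx⟩ := exists_ne y
  have e := P_trans y τ x
  rw [h] at e
  have h1 : cc x - cc y ≠ 0 := sub_ne_zero.2 (cc_inj.ne hx)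
  have h2 : conj (cc y) ≠ 0 := right_ne_zero_of_mul_eq_one (cc_mul_conj y)
  have h3 : (τ : ℂ) ≠ 0 := by exact_mod_cast hτ
  have : I * τ * conj (cc y) * (cc x - cc y) * (cc x - cc y) = 0 := by
    simp only [Equiv.Perm.coe_one, id] at e
    linear_combination e
  simp [h1, h2, h3] at this

theorem P_contract (y : S1) {N : Set S1} (hN : N ∈ 𝓝 y) :
    ∃ M > 0, ∀ τ : ℝ, M ≤ |τ| → ∀ x ∉ N, P y τ x ∈ N := by
  rw [cc_ind.nhds_eq_comap, mem_comap] at hN
  obtain ⟨t, ht, hN⟩ := hN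
  obtain ⟨ε, hε, hb⟩ := Metric.mem_nhds_iff.1 ht
  refine ⟨(2 / ε + 2) / ε, by positivity, fun τ hτ x hx => hN (hb ?_)⟩
  have h1 : ε ≤ ‖cc x - cc y‖ := by
    by_contra hc
    exact hx (hN (hb (by simpa [dist_eq_norm] using hc)))
  have h2 : ‖cc x - cc y‖ ≤ 2 := by
    have := norm_sub_le (cc x) (cc y)
    rw [cc_norm, cc_norm] at this; linarith
  have h3 : ‖I * τ * conj (cc y) * (cc x - cc y)‖ = |τ| * ‖cc x - cc y‖ := by
    simp [cc_norm]
  have h4 : 2 / ε + 2 ≤ |τ| * ‖cc x - cc y‖ := by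
    rw [div_le_iff₀ hε] at hτ
    exact hτ.trans (mul_le_mul_of_nonneg_left h1 (abs_nonneg _))
  have h5 : 2 / ε + 1 ≤ ‖1 + I * τ * conj (cc y) * (cc x - cc y)‖ := by
    have := norm_sub_le (1 + I * τ * conj (cc y) * (cc x - cc y)) 1
    rw [add_sub_cancel_left, h3, norm_one] at this
    linarith
  have h6 := congrArg norm (P_trans y τ x)
  rw [norm_mul] at h6
  rw [Metric.mem_ball, dist_eq_norm]
  by_contra hc
  push Not at hc
  have : ε * (2 / ε + 1) ≤ 2 := by
    calc ε * (2 / ε + 1) ≤ _ := mul_le_mul hc h5 (by positivity) (norm_nonneg _)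
      _ = _ := h6
      _ ≤ 2 := h2
  have e : ε * (2 / ε + 1) = 2 + ε := by field_simp
  linarith

theorem P_cont (y : S1) : Continuous fun p : ℝ × S1 => P y p.1 p.2 := by
  rw [cc_ind.continuous_iff]
  have : (cc ∘ fun p : ℝ × S1 => P y p.1 p.2) = fun p : ℝ × S1 =>
      ((1 + I * p.1) * cc p.2 + -(I * p.1 * cc y)) /
        (conj (-(I * p.1 * cc y)) * cc p.2 + conj (1 + I * p.1)) :=
    funext fun p => (P_mob y p.1).eq p.2
  rw [this]
  have := cc_cont
  refine Continuous.div (by fun_prop) (by fun_prop) fun p => den_ne (par_lt y p.1) p.2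

theorem P_C0 (y : S1) : ∀ η > 0, ∀ᶠ τ in 𝓝 (0 : ℝ), ∀ x, dist (P y τ x) x < η := by
  intro η hη
  have := (isCompact_univ (X := S1)).eventually_forall_of_forall_eventually (x₀ := (0 : ℝ))
    (P := fun τ x => dist (P y τ x) x < η) fun x _ => by
      have hc : Continuous fun p : ℝ × S1 => dist (P y p.1 p.2) p.2 :=
        (P_cont y).dist continuous_snd
      exact hc.continuousAt.eventually_lt continuousAt_const (by simpa [P_zero] using hη)
  simpa using this

theorem P_C1 (y : S1) : ∀ η > 0, ∀ᶠ τ in 𝓝 (0 : ℝ), ∀ x ∈ (univ : Set S1), |LD (P y τ) x| < η := by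
  intro η hη
  refine (isCompact_univ (X := S1)).eventually_forall_of_forall_eventually (x₀ := (0 : ℝ))
    (P := fun τ x => |LD (P y τ) x| < η) fun x _ => ?_
  simp only [fun τ => (P_mob y τ).isLift.LD_eq]
  have hc : Continuous fun p : ℝ × S1 => |Jm (1 + I * p.1) (-(I * p.1 * cc y)) p.2| :=
    (Jm_cont (by fun_prop) (by fun_prop) continuous_snd fun p => par_lt y p.1).abs
  exact hc.continuousAt.eventually_lt continuousAt_const (by simpa [Jm] using hη)

/-- The two base points. -/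
noncomputable def o1 : S1 := ((0 : ℝ) : S1)

/-- The antipode. -/
noncomputable def o2 : S1 := ((1 / 2 : ℝ) : S1)

theorem cc_o1 : cc o1 = 1 := by rw [o1, cc_coe]; simp

theorem cc_o2 : cc o2 = -1 := by
  rw [o2, cc_coe, ← exp_pi_mul_I]; congr 1; push_cast; ring

theorem P_onto {w : S1} (hw : w ≠ o2) : ∃ τ : ℝ, P o2 τ o1 = w := by
  have h1 : cc w + 1 ≠ 0 := fun e => hw (cc_inj (by rw [cc_o2]; linear_combination e))
  have h2 : normSq (cc w) = 1 := by rw [normSq_eq_norm_sq, cc_norm]; simp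
  refine ⟨-(1 / (cc w + 1)).im, cc_inj ?_⟩
  have e := P_trans o2 (-(1 / (cc w + 1)).im) o1
  rw [cc_o1, cc_o2] at e
  have h3 : (1 + I * ((-(1 / (cc w + 1)).im : ℝ) : ℂ) * conj (-1 : ℂ) * (1 - -1)) =
      2 / (cc w + 1) := by
    have h4 : (1 / (cc w + 1)).re = 1 / 2 := by
      have h5 := normSq_pos.2 h1
      rw [one_div, inv_re]
      field_simp
      simp only [normSq_apply, add_re, one_re, add_im, one_im, add_zero] at h2 ⊢
      linarith
    rw [show 2 / (cc w + 1) = 2 * (1 / (cc w + 1)) by ring]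
    generalize 1 / (cc w + 1) = v at h4
    apply Complex.ext <;> simp [h4]
    ring
  rw [h3] at e
  field_simp at e
  linear_combination e / 2

/-- The generators. -/
def Sg : Set (Equiv.Perm S1) := image2 P {o1, o2} {1, -1, √2, -√2}

theorem Sg_fin : Sg.Finite := (Set.toFinite _).image2 _ (Set.toFinite _)

theorem Sg_symm : ∀ s ∈ Sg, s⁻¹ ∈ Sg := by
  rintro _ ⟨y, hy, τ, hτ, rfl⟩
  refine ⟨y, hy, -τ, ?_, P_neg y τ⟩
  rcases hτ with rfl | rfl | rfl | rfl <;> simp

theorem Sg_mob : Subgroup.closure Sg ≤ MobG := by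
  rw [Subgroup.closure_le]
  rintro _ ⟨y, -, τ, -, rfl⟩
  exact P_mem y τ

theorem P_in {y : S1} (hy : y ∈ ({o1, o2} : Set S1)) {τ : ℝ}
    (hτ : τ ∈ AddSubgroup.closure ({√2, 1} : Set ℝ)) : P y τ ∈ Subgroup.closure Sg := by
  induction hτ using AddSubgroup.closure_induction with
  | mem x hx =>
    refine Subgroup.subset_closure ⟨y, hy, x, ?_, rfl⟩
    rcases hx with rfl | rfl <;> simp
  | zero => rw [P_zero]; exact one_mem _
  | add a b _ _ ha hb => rw [P_add]; exact mul_mem ha hb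
  | neg a _ ha => rw [P_neg]; exact inv_mem ha

theorem lam_dense : Dense (AddSubgroup.closure ({√2, 1} : Set ℝ) : Set ℝ) :=
  dense_addSubgroupClosure_pair_iff.2 (by simpa using irrational_sqrt_two)

theorem orbit_dense {V : Set S1} (hV : IsOpen V) (nV : V.Nonempty) :
    ∃ g ∈ Subgroup.closure Sg, g o1 ∈ V := by
  obtain ⟨w, hw, hw'⟩ := ((open_infinite hV nV).sdiff (Set.finite_singleton o2)).nonempty
  obtain ⟨τ, hτ⟩ := P_onto hw'
  have hc : Continuous fun σ : ℝ => P o2 σ o1 :=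
    Continuous.comp (f := fun σ : ℝ => (σ, o1)) (g := fun p : ℝ × S1 => P o2 p.1 p.2)
      (P_cont o2) (by fun_prop)
  have hne : ((fun σ : ℝ => P o2 σ o1) ⁻¹' V).Nonempty := ⟨τ, by
    rw [mem_preimage, hτ]; exact hw⟩
  obtain ⟨σ, h1, h2⟩ := lam_dense.exists_mem_open (hV.preimage hc) hne
  exact ⟨P o2 σ, P_in (Or.inr rfl) h1, h2⟩

theorem Sg_prox (V V' : Set S1) (hV : IsOpen V) (hV' : IsOpen V') (nV : V.Nonempty)
    (nV' : V'.Nonempty) : ∃ k ∈ Subgroup.closure Sg, ∀ x ∉ V', k x ∈ V := by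
  obtain ⟨g, hg, h⟩ := orbit_dense hV nV
  obtain ⟨g', hg', h'⟩ := orbit_dense hV' nV'
  have hN : g ⁻¹' V ∩ g' ⁻¹' V' ∈ 𝓝 o1 :=
    ((hV.preimage (MobG_sm (Sg_mob hg)).cont).inter
      (hV'.preimage (MobG_sm (Sg_mob hg')).cont)).mem_nhds ⟨h, h'⟩
  obtain ⟨M, -, H⟩ := P_contract o1 hN
  obtain ⟨n, hn⟩ := exists_nat_ge M
  have hP : P o1 n ∈ Subgroup.closure Sg := by
    have := zpow_mem (P_in (y := o1) (τ := 1) (by simp) (AddSubgroup.subset_closure (by simp))) n
    rwa [P_zpow, mul_one] at this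
  refine ⟨g * P o1 n * g'⁻¹, mul_mem (mul_mem hg hP) (inv_mem hg'), fun x hx => ?_⟩
  exact (H n (hn.trans (le_abs_self _)) (g'⁻¹ x) fun hc => hx (by simpa using hc.2)).1

/-- Analytic curves in the circle. -/
def An (z : ℝ → S1) : Prop := AnalyticOnNhd ℝ (fun τ => cc (z τ)) univ

theorem An.mob {z : ℝ → S1} (hz : An z) {g : Equiv.Perm S1} (hg : g ∈ MobG) :
    An fun τ => g (z τ) := by
  obtain ⟨α, β, h⟩ := hg
  intro τ hτ
  simp only [h.eq]
  have := hz τ hτ
  exact AnalyticAt.div (f := fun τ => α * cc (z τ) + β)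
    (g := fun τ => conj β * cc (z τ) + conj α) (by fun_prop) (by fun_prop) (den_ne h.1 _)

theorem An.par {z : ℝ → S1} (hz : An z) (y : S1) (c : ℝ) : An fun τ => P y (c * τ) (z τ) := by
  intro τ hτ
  have h1 := hz τ hτ
  have h2 : AnalyticAt ℝ (fun τ : ℝ => (τ : ℂ)) τ := ofRealCLM.analyticAt τ
  have hd := den_ne (par_lt y (c * τ)) (z τ)
  simp only [fun σ => (P_mob y σ).eq, map_neg, map_add, map_one, map_mul, conj_I, conj_ofReal,
    ofReal_mul] at hd ⊢
  exact AnalyticAt.div (f := fun τ : ℝ => (1 + I * (c * τ)) * cc (z τ) + -(I * (c * τ) * cc y))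
    (g := fun τ : ℝ => -(-I * (c * τ) * conj (cc y)) * cc (z τ) + (1 + -I * (c * τ)))
    (by fun_prop) (by fun_prop) hd

theorem an_ev {k : Equiv.Perm S1} (hk : k ∈ MobG) (V : List (Equiv.Perm S1 ⊕ Bool))
    (hV : ∀ x ∈ V, x ∈ Let Sg) (y : S1) : An fun τ => ev (k * P o1 τ * k⁻¹) V y := by
  induction V with
  | nil => exact fun _ _ => analyticAt_const (v := cc y)
  | cons x V ih =>
    have ih := ih fun y hy => hV y (by simp [hy])
    simp only [ev_cons, Equiv.Perm.coe_mul, Function.comp]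
    rcases hV x (by simp) with ⟨s, hs, rfl⟩ | ⟨b, rfl⟩
    · exact ih.mob (Sg_mob (Subgroup.subset_closure hs))
    · simp only [val, conj_zpow, P_zpow, Equiv.Perm.coe_mul, Function.comp]
      exact ((ih.mob (inv_mem hk)).par o1 _).mob hk

theorem generic {k : Equiv.Perm S1} (hk : k ∈ MobG) (R : ℕ) (σ : ℝ) : ∀ᶠ τ in 𝓝[≠] (0 : ℝ),
    ∀ V ∈ Wd (Let Sg) R, ∀ W ∈ Wd (Let Sg) R, ∀ g ∈ Bl Sg R,
      ev (k * P o1 τ * k⁻¹) V = ev (k * P o1 τ * k⁻¹) W * g →
      ev (k * P o1 σ * k⁻¹) V = ev (k * P o1 σ * k⁻¹) W * g := by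
  have hW := Wd_finite (Let_finite Sg_fin) R
  rw [eventually_all_finite hW]
  intro V hV
  rw [eventually_all_finite hW]
  intro W hW
  rw [eventually_all_finite (Bl_finite Sg_fin R)]
  intro g _
  by_contra hc
  rw [not_eventually] at hc
  have hne : ¬ ev (k * P o1 σ * k⁻¹) V = ev (k * P o1 σ * k⁻¹) W * g := by
    obtain ⟨τ, hτ⟩ := hc.exists
    exact fun h => hτ fun _ => h
  apply hne
  ext y
  have := AnalyticOnNhd.eq_of_frequently_eq (an_ev hk V hV.1 y) (an_ev hk W hW.1 (g y))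
    (z₀ := 0) (hc.mono fun τ hτ => by
      have : ev (k * P o1 τ * k⁻¹) V = ev (k * P o1 τ * k⁻¹) W * g := by
        by_contra h; exact hτ fun h' => (h h').elim
      simp only [this]; rfl)
  exact cc_inj (congrFun this σ)

theorem base_Sg : Base Sg where
  fin := Sg_fin
  symm := Sg_symm
  sm s hs := MobG_sm (Sg_mob (Subgroup.subset_closure hs))
  fix g hg := MobG_fix (Sg_mob hg)
  prox := Sg_prox
  blk r hr η hη := by
    have hB := Bl_finite Sg_fin (2 * r)
    have hBm : ∀ g ∈ Bl Sg (2 * r), g ∈ MobG := fun g hg => Sg_mob (Bl_sub_closure hg)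
    have hinf : (univ : Set S1).Infinite := open_infinite isOpen_univ univ_nonempty
    have f1 : (⋃ g ∈ Bl Sg (2 * r), {x | g ≠ 1 ∧ g x = x}).Finite := by
      refine hB.biUnion fun g hg => ?_
      by_cases e : g = 1
      · simp [e]
      · exact (MobG_fix (hBm g hg) e).subset fun x hx => hx.2
    obtain ⟨k, hk, hq⟩ := orbit_dense f1.isClosed.isOpen_compl (by
      obtain ⟨x, -, hx⟩ := (hinf.sdiff f1).nonempty
      exact ⟨x, hx⟩)
    have hq' : ∀ g ∈ Bl Sg (2 * r), g ≠ 1 → g (k o1) ≠ k o1 := fun g hg h1 h2 =>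
      hq (mem_iUnion₂.2 ⟨g, hg, h1, h2⟩)
    obtain ⟨x0, -, hx0⟩ := (hinf.sdiff (hB.image fun g => g⁻¹ (k o1))).nonempty
    have hx0' : ∀ g ∈ Bl Sg (2 * r), k o1 ≠ g x0 := fun g hg h =>
      hx0 ⟨g, hg, by simp [h]⟩
    have hN : ∀ᶠ y in 𝓝 (k o1), ∀ g ∈ Bl Sg (2 * r), y ≠ g x0 ∧ (g ≠ 1 →
        dist (g y) (g (k o1)) < dist (g (k o1)) (k o1) / 2 ∧
        dist y (k o1) < dist (g (k o1)) (k o1) / 2) := by
      rw [eventually_all_finite hB]
      intro g hg
      refine (eventually_ne_nhds (hx0' g hg)).and ?_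
      by_cases e : g = 1
      · simp [e]
      · have hd : 0 < dist (g (k o1)) (k o1) / 2 := half_pos (dist_pos.2 (hq' g hg e))
        filter_upwards [Metric.tendsto_nhds.1 ((MobG_sm (hBm g hg)).cont.continuousAt
          (x := k o1)) _ hd, Metric.ball_mem_nhds (k o1) hd] with y h1 h2 _ using ⟨h1, h2⟩
    obtain ⟨N, hN1, hN2⟩ := eventually_iff_exists_mem.1 hN
    have hkm := Sg_mob hk
    obtain ⟨M, hM, HM⟩ := P_contract o1 ((MobG_sm hkm).cont.continuousAt.preimage_mem_nhds hN1)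
    have c0 := conj_C0 (a := fun τ x => P o1 τ x) (k := k) (k' := fun x => k⁻¹ x)
      (MobG_sm hkm).cont (ap_inv k) (P_C0 o1) η hη
    have c1 := conj_C1 (D := LD) (G := MobG) (fun g hg => (MobG_sm hg).contLD)
      (fun g hg g' hg' => LD_mul (MobG_sm hg) (MobG_sm hg')) (P_mem o1) (inv_mem hkm)
      (P_C0 o1) (P_C1 o1) η hη
    have fr := mem_closure_iff_frequently.1 ((lam_dense.sdiff_singleton 0) 0)
    obtain ⟨τ, ⟨hτ, hτ0⟩, ⟨g0, g1⟩, g2⟩ := (fr.and_eventually ((c0.and c1).and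
      (eventually_nhdsWithin_iff.1 (generic hkm (2 * r) M)))).exists
    have ha : k * P o1 τ * k⁻¹ ∈ Subgroup.closure Sg :=
      mul_mem (mul_mem hk (P_in (by simp) hτ)) (inv_mem hk)
    refine ⟨k * P o1 τ * k⁻¹, ha, fun e => P_ne_one o1 hτ0 (by simpa using e), g0,
      fun x => by simpa using g1 x (mem_univ _), ?_⟩
    refine block (Y := S1) (N := N) (x0 := x0) Sg_fin Sg_symm Subgroup.subset_closure hr ha
      (g2 hτ0) (fun g hg h1 y hy hy' => ?_) (fun g hg h => (hN2 _ h g hg).1 rfl)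
      (fun n hn y hy => ?_)
    · have k1 := ((hN2 _ hy g hg).2 h1).1
      have k2 := ((hN2 _ hy' g hg).2 h1).2
      have := dist_triangle_left (g (k o1)) (k o1) (g y)
      simp only [Equiv.Perm.smul_def] at k2
      linarith
    · rw [conj_zpow, P_zpow]
      refine HM (n * M) ?_ (k⁻¹ y) (by simpa using hy)
      rw [abs_mul, abs_of_pos hM]
      have : (1 : ℝ) ≤ |(n : ℝ)| := by exact_mod_cast Int.one_le_abs hn
      nlinarith

end Pool.Agent.H507Z.Circ
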