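import Pool.Agent.H507Z.Circ.Lift

/-! One level of the construction of the new smooth structure. -/

namespace Pool.Agent.H507Z.Circ

open Filter Set Topology MeasureTheory

theorem open_infinite {O : Set S1} (hO : IsOpen O) (hne : O.Nonempty) : O.Infinite := by
  obtain ⟨x, hx⟩ := hne
  exact infinite_of_mem_nhds x (hO.mem_nhds hx)

theorem ap_inv (g : Equiv.Perm S1) (x : S1) : g (g⁻¹ x) = x := by simp

theorem inv_ap (g : Equiv.Perm S1) (x : S1) : g⁻¹ (g x) = x := by simp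

theorem vol_le {ι : Type*} (E : Finset ι) (c : ι → S1) {ε δ' : ℝ} (hε : 0 < ε)
    (hδ' : δ' = ε / (2 * (E.card + 1))) :
    volume (⋃ g ∈ E, Metric.closedBall (c g) δ') ≤ ENNReal.ofReal ε := by
  refine (measure_biUnion_finset_le _ _).trans ?_
  calc ∑ g ∈ E, volume (Metric.closedBall (c g) δ') ≤ ∑ g ∈ E, ENNReal.ofReal (2 * δ') := by
        refine Finset.sum_le_sum fun g _ => ?_
        rw [AddCircle.volume_closedBall]
        exact ENNReal.ofReal_le_ofReal (min_le_right _ _)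
    _ = ENNReal.ofReal (E.card * (2 * δ')) := by
        rw [Finset.sum_const, nsmul_eq_mul, ENNReal.ofReal_mul (Nat.cast_nonneg _),
          ENNReal.ofReal_natCast]
    _ ≤ ENNReal.ofReal ε := by
        apply ENNReal.ofReal_le_ofReal
        rw [hδ']
        have : (E.card : ℝ) * (2 * (ε / (2 * (E.card + 1)))) = ε * (E.card / (E.card + 1)) := by
          field_simp
        rw [this]
        apply mul_le_of_le_one_right hε.le
        rw [div_le_one (by positivity)]; linarith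

/-- What one level provides. -/
structure Level (S : Set (Equiv.Perm S1)) (z0 : S1) (ρ0 : ℝ) (m r : ℕ) (Φ : S1 → ℝ) (T : Set S1)
    (a : Equiv.Perm S1) (φ : S1 → ℝ) (r' : ℕ) (T' : Set S1) : Prop where
  aG : a ∈ Subgroup.closure S
  a1 : a ≠ 1
  aC0 : ∀ x, dist (a x) x < (1 / 2) ^ m
  aC1 : ∀ x, |LD a x + Φ (a x) - Φ x| < (1 / 2) ^ m
  rr : 2 * r ≤ r'
  alen : ∃ n, a ∈ Bl S n ∧ n * 2 ^ m ≤ r'
  cont : Continuous φ
  nonpos : ∀ x, φ x ≤ 0
  Tfin : T'.Finite
  Tsub : T ⊆ T'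
  gen : ∀ s ∈ S, ∀ x, |φ (s x) - φ x| ≤ 1 / r
  aoff : ∀ x ∉ Metric.ball z0 ρ0, |φ (a x) - φ x| ≤ 1 / r
  test : ∀ w ∈ Bl S r', ∀ x ∈ T, φ (w x) - φ x = 0
  osc : ∀ w ∈ Bl S r', w ∉ Bl S r → ∃ x ∈ T', ∃ x' ∈ T',
    1 / 4 ≤ |(LD w x + Φ (w x) - Φ x + (φ (w x) - φ x)) -
      (LD w x' + Φ (w x') - Φ x' + (φ (w x') - φ x'))|
  small : volume {x | φ x ≠ 0} ≤ ENNReal.ofReal ((1 / 2) ^ m)

set_option maxHeartbeats 400000 in
theorem exists_level {S : Set (Equiv.Perm S1)} (hB : Base S) (z0 : S1) {ρ0 : ℝ} (hρ0 : 0 < ρ0)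
    (m : ℕ) {r : ℕ} (hr : 1 ≤ r) {Φ : S1 → ℝ} (hΦ : Continuous Φ) {T : Set S1} (hT : T.Finite) :
    ∃ a φ r' T', Level S z0 ρ0 m r Φ T a φ r' T' := by
  classical
  let G := Subgroup.closure S
  have hsm : ∀ g ∈ G, Sm g := fun g hg => sm_of_closure hB.symm hB.sm hg
  obtain ⟨ε, hεdef⟩ : ∃ ε : ℝ, (1 / 2) ^ m = ε := ⟨_, rfl⟩
  have hε : 0 < ε := by rw [← hεdef]; positivity
  have hr0 : (0 : ℝ) < r := by exact_mod_cast hr
  obtain ⟨δ, hδ, hδΦ⟩ := Metric.uniformContinuous_iff.1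
    (CompactSpace.uniformContinuous_of_continuous hΦ) (ε / 2) (by positivity)
  obtain ⟨a, aG, a1, aC0, aC1, f, f1, f2, f3, f4, f5, f6⟩ :=
    hB.blk r hr (min (min δ (ε / 2)) ρ0) (by positivity)
  obtain ⟨na, hna⟩ := exists_Bl hB.symm aG
  obtain ⟨r', hr'1, hr'2⟩ : ∃ r', 2 * r ≤ r' ∧ na * 2 ^ m ≤ r' :=
    ⟨max (2 * r) (na * 2 ^ m), le_max_left _ _, le_max_right _ _⟩
  have hna' : na ≤ r' := le_trans (Nat.le_mul_of_pos_right _ (by positivity)) hr'2
  have haB : a ∈ Bl S r' := Bl_mono hna' hna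
  have h1B : (1 : Equiv.Perm S1) ∈ Bl S r' := one_mem_Bl (by omega)
  have hSB : ∀ s ∈ S, s ∈ Bl S r' := fun s hs => by
    have := mul_mem_Bl hs (one_mem_Bl (S := S) (le_refl 1))
    rw [mul_one] at this
    exact Bl_mono (by omega) this
  have hBfin : (Bl S r').Finite := Bl_finite hB.fin r'
  have hEfin : {g | ∃ w ∈ Bl S r', f (w * g) ≠ 0}.Finite := by
    refine (hBfin.image2 (fun w h => w⁻¹ * h) f1).subset ?_
    rintro g ⟨w, hw, hg⟩
    exact ⟨w, hw, w * g, hg, by simp⟩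
  obtain ⟨E, hmemE⟩ : ∃ E : Finset (Equiv.Perm S1),
      ∀ g, g ∈ E ↔ ∃ w ∈ Bl S r', f (w * g) ≠ 0 := ⟨hEfin.toFinset, fun g => by simp⟩
  have hEG : ∀ g ∈ E, g ∈ G := by
    intro g hg
    obtain ⟨w, hw, h⟩ := (hmemE g).1 hg
    have := G.mul_mem (G.inv_mem (Bl_sub_closure hw)) (f2 _ h)
    simpa using this
  -- the open set in which the centre is chosen
  obtain ⟨O, hO⟩ : ∃ O : Set S1,
      O = Metric.ball z0 ρ0 ∩ (fun x => a⁻¹ x) ⁻¹' Metric.ball z0 ρ0 := ⟨_, rfl⟩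
  have hOo : IsOpen O := by
    rw [hO]
    exact Metric.isOpen_ball.inter (Metric.isOpen_ball.preimage (hsm _ (G.inv_mem aG)).cont)
  have hOne : O.Nonempty := by
    rw [hO]
    exact ⟨a z0, lt_of_lt_of_le (aC0 z0) (min_le_right _ _), by simpa using hρ0⟩
  have hO1 : ∀ x ∈ O, x ∈ Metric.ball z0 ρ0 ∧ a⁻¹ x ∈ Metric.ball z0 ρ0 := by
    rw [hO]; exact fun x hx => hx
  have hbad : ((⋃ g ∈ (E : Set (Equiv.Perm S1)), ⋃ g' ∈ (E : Set (Equiv.Perm S1)),
      {x | g ≠ g' ∧ g x = g' x}) ∪ ⋃ g ∈ (E : Set (Equiv.Perm S1)), g ⁻¹' T).Finite := by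
    refine Set.Finite.union ?_ ?_
    · refine E.finite_toSet.biUnion fun g hg => E.finite_toSet.biUnion fun g' hg' => ?_
      by_cases e : g = g'
      · simp [e]
      · refine (hB.fix (g'⁻¹ * g) (G.mul_mem (G.inv_mem (hEG _ hg')) (hEG _ hg))
          (fun h => e (by rw [inv_mul_eq_one] at h; exact h.symm))).subset ?_
        rintro x ⟨-, hx⟩
        simp [hx]
    · exact E.finite_toSet.biUnion fun g _ => hT.preimage g.injective.injOn
  obtain ⟨p, hpO, hp⟩ := ((open_infinite hOo hOne).sdiff hbad).nonempty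
  have hp1 : ∀ g ∈ E, ∀ g' ∈ E, g ≠ g' → g p ≠ g' p := by
    intro g hg g' hg' e h
    exact hp (Or.inl (mem_iUnion₂.2 ⟨g, hg, mem_iUnion₂.2 ⟨g', hg', e, h⟩⟩))
  have hp2 : ∀ g ∈ E, g p ∉ T := fun g hg h => hp (Or.inr (mem_iUnion₂.2 ⟨g, hg, h⟩))
  obtain ⟨δ', hδ'⟩ : ∃ δ' : ℝ, δ' = ε / (2 * (E.card + 1)) := ⟨_, rfl⟩
  have hδ'0 : 0 < δ' := by rw [hδ']; positivity
  have hev : ∀ᶠ y in 𝓝 p, y ∈ O ∧
      (∀ g ∈ E, ∀ g' ∈ E, g ≠ g' → dist (g y) (g p) < dist (g p) (g' p) / 2) ∧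
      (∀ g ∈ E, g y ∉ T) ∧
      (∀ w ∈ Bl S r', ∀ g ∈ E, |(LD w (g y) + Φ (w (g y)) - Φ (g y)) -
        (LD w (g p) + Φ (w (g p)) - Φ (g p))| < 1 / 4) ∧
      (∀ g ∈ E, dist (g y) (g p) < δ') := by
    refine Eventually.and (hOo.mem_nhds hpO) (Eventually.and ?_ (Eventually.and ?_ (Eventually.and ?_ ?_)))
    · rw [Filter.eventually_all_finset]
      intro g hg
      rw [Filter.eventually_all_finset]
      intro g' hg'
      by_cases e : g = g'
      · simp [e]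
      · have := Metric.tendsto_nhds.1 ((hsm g (hEG g hg)).cont.continuousAt (x := p))
          (dist (g p) (g' p) / 2) (by have := dist_pos.2 (hp1 g hg g' hg' e); positivity)
        filter_upwards [this] with y hy _ using hy
    · rw [Filter.eventually_all_finset]
      intro g hg
      exact (hsm g (hEG g hg)).cont.continuousAt.eventually
        (hT.isClosed.isOpen_compl.mem_nhds (hp2 g hg))
    · rw [Filter.eventually_all_finite hBfin]
      intro w hw
      rw [Filter.eventually_all_finset]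
      intro g hg
      have hw' := hsm w (Bl_sub_closure hw)
      have hg' := (hsm g (hEG g hg)).cont
      have hc : Continuous fun y => LD w (g y) + Φ (w (g y)) - Φ (g y) :=
        ((hw'.contLD.comp hg').add (hΦ.comp (hw'.cont.comp hg'))).sub (hΦ.comp hg')
      exact Metric.tendsto_nhds.1 (hc.continuousAt (x := p)) (1 / 4) (by norm_num)
    · rw [Filter.eventually_all_finset]
      intro g hg
      exact Metric.tendsto_nhds.1 ((hsm g (hEG g hg)).cont.continuousAt (x := p)) δ' hδ'0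
  obtain ⟨lam, hlam, hA⟩ := Metric.eventually_nhds_iff_ball.1 hev
  obtain ⟨A, hAdef⟩ : ∃ A, A = Metric.ball p lam := ⟨_, rfl⟩
  rw [← hAdef] at hA
  have hAo : IsOpen A := by rw [hAdef]; exact Metric.isOpen_ball
  have hpA : p ∈ A := by rw [hAdef]; exact Metric.mem_ball_self hlam
  obtain ⟨p', hp'A, hp'⟩ := ((open_infinite hAo ⟨p, hpA⟩).sdiff (Set.finite_singleton p)).nonempty
  have hpp : 0 < dist p' p := dist_pos.2 hp'
  obtain ⟨β, hβ⟩ : ∃ β : S1 → ℝ, β = fun x => max 0 (1 - dist x p / dist p' p) := ⟨_, rfl⟩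
  have β0 : ∀ x, 0 ≤ β x := fun x => by rw [hβ]; exact le_max_left _ _
  have β1 : ∀ x, β x ≤ 1 := fun x => by
    rw [hβ]
    exact max_le zero_le_one (by
      have : 0 ≤ dist x p / dist p' p := by positivity
      linarith)
  have βp : β p = 1 := by simp [hβ]
  have βp' : β p' = 0 := by simp [hβ, hpp.ne']
  have βA : ∀ x ∉ A, β x = 0 := by
    intro x hx
    have h1 : lam ≤ dist x p := by simpa [hAdef] using hx
    have h2 : dist p' p < lam := by simpa [hAdef] using hp'A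
    have : 1 ≤ dist x p / dist p' p := by rw [one_le_div hpp]; linarith
    rw [hβ]
    exact max_eq_left (by linarith)
  have βc : Continuous β := by
    rw [hβ]; fun_prop
  have hdisj : ∀ g ∈ E, ∀ g' ∈ E, ∀ x, g⁻¹ x ∈ A → g'⁻¹ x ∈ A → g = g' := by
    intro g hg g' hg' x h1 h2
    by_contra e
    have k1 := (hA _ h1).2.1 g hg g' hg' e
    have k2 := (hA _ h2).2.1 g' hg' g hg (Ne.symm e)
    simp only [ap_inv] at k1 k2
    have := dist_triangle_left (g p) (g' p) x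
    rw [dist_comm (g' p)] at k2
    linarith
  have hone : ∀ (c : Equiv.Perm S1 → ℝ) (x : S1), ∀ g0 ∈ E, g0⁻¹ x ∈ A →
      ∑ g ∈ E, c g * β (g⁻¹ x) = c g0 * β (g0⁻¹ x) := by
    intro c x g0 hg0 hx
    refine Finset.sum_eq_single_of_mem g0 hg0 fun g hg e => ?_
    rw [βA _ fun h => e (hdisj g hg g0 hg0 x h hx), mul_zero]
  have hzero : ∀ (c : Equiv.Perm S1 → ℝ) (x : S1), (∀ g ∈ E, g⁻¹ x ∉ A) →
      ∑ g ∈ E, c g * β (g⁻¹ x) = 0 := fun c x h =>
    Finset.sum_eq_zero fun g hg => by rw [βA _ (h g hg), mul_zero]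
  obtain ⟨φ, hφ⟩ : ∃ φ : S1 → ℝ, φ = fun x => -∑ g ∈ E, f g * β (g⁻¹ x) := ⟨_, rfl⟩
  have hkey : ∀ w ∈ Bl S r', ∀ x,
      φ (w x) - φ x = -∑ g ∈ E, (f (w * g) - f g) * β (g⁻¹ x) := by
    intro w hw x
    have e1 : ∑ g ∈ E, f g * β (g⁻¹ (w x)) = ∑ᶠ g, f g * β (g⁻¹ (w x)) := by
      symm
      apply finsum_eq_sum_of_support_subset
      intro g hg
      exact Finset.mem_coe.2 ((hmemE g).2 ⟨1, h1B, by
        rw [one_mul]; exact left_ne_zero_of_mul hg⟩)
    have e2 : ∑ᶠ g, f g * β (g⁻¹ (w x)) = ∑ᶠ g, f (w * g) * β (g⁻¹ x) := by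
      rw [← finsum_comp_equiv (Equiv.mulLeft w)]
      simp
    have e3 : ∑ᶠ g, f (w * g) * β (g⁻¹ x) = ∑ g ∈ E, f (w * g) * β (g⁻¹ x) := by
      apply finsum_eq_sum_of_support_subset
      intro g hg
      exact Finset.mem_coe.2 ((hmemE g).2 ⟨w, hw, left_ne_zero_of_mul hg⟩)
    simp only [hφ]
    rw [e1, e2, e3]
    simp only [sub_mul, Finset.sum_sub_distrib]
    ring
  have hbound : ∀ w ∈ Bl S r', ∀ x, (∀ g ∈ E, g⁻¹ x ∈ A → |f (w * g) - f g| ≤ 1 / r) →
      |φ (w x) - φ x| ≤ 1 / r := by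
    intro w hw x h
    rw [hkey w hw, abs_neg]
    by_cases e : ∃ g ∈ E, g⁻¹ x ∈ A
    · obtain ⟨g, hg, hx⟩ := e
      rw [hone _ x g hg hx, abs_mul, abs_of_nonneg (β0 _)]
      calc _ ≤ (1 / r : ℝ) * 1 := mul_le_mul (h g hg hx) (β1 _) (β0 _) (by positivity)
        _ = _ := mul_one _
    · push Not at e
      rw [hzero _ x e, abs_zero]; positivity
  refine ⟨a, φ, r', T ∪ ((fun g : Equiv.Perm S1 => g p) '' E ∪ (fun g : Equiv.Perm S1 => g p') '' E),
    aG, a1, fun x => ?_, fun x => ?_, hr'1, ⟨na, hna, hr'2⟩, ?_, fun x => ?_, ?_, subset_union_left,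
    fun s hs x => hbound s (hSB s hs) x fun g _ _ => f4 s hs g, fun x hx => ?_, fun w hw x hx => ?_,
    fun w hw hw' => ?_, ?_⟩
  · have := lt_of_lt_of_le (aC0 x) ((min_le_left _ _).trans (min_le_right _ _))
    rw [hεdef]
    linarith
  · have h1 := lt_of_lt_of_le (aC1 x) ((min_le_left _ _).trans (min_le_right _ _))
    have h2 := hδΦ (lt_of_lt_of_le (aC0 x) ((min_le_left _ _).trans (min_le_left _ _)))
    rw [Real.dist_eq] at h2
    rw [hεdef]
    rw [abs_lt] at h1 h2 ⊢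
    constructor <;> linarith [h1.1, h1.2, h2.1, h2.2]
  · rw [hφ]
    refine Continuous.neg (continuous_finsetSum _ fun g hg => continuous_const.mul ?_)
    exact βc.comp (hsm _ (G.inv_mem (hEG g hg))).cont
  · rw [hφ]
    exact neg_nonpos.2 (Finset.sum_nonneg fun g _ => mul_nonneg (f3 g) (β0 _))
  · exact hT.union ((E.finite_toSet.image _).union (E.finite_toSet.image _))
  · refine hbound a haB x fun g _ hx' => f5 g ?_ ?_
    · rintro rfl
      exact hx (hO1 _ (hA _ hx').1).1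
    · intro e
      have e' : g⁻¹ = a := by rw [eq_comm, ← mul_eq_one_iff_eq_inv]; exact e
      rw [e'] at hx'
      have := (hO1 _ (hA _ hx').1).2
      simp only [inv_ap] at this
      exact hx this
  · rw [hkey w hw, hzero, neg_zero]
    intro g hg h
    have := (hA _ h).2.2.1 g hg
    simp only [ap_inv] at this
    exact this hx
  · obtain ⟨g, hg⟩ := f6 w hw'
    have hgE : g ∈ E := by
      rw [hmemE]
      by_contra hc
      push Not at hc
      have h1 := hc w hw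
      have h2 := hc 1 h1B
      rw [one_mul] at h2
      rw [h1, h2] at hg
      norm_num at hg
    refine ⟨g p, Or.inr (Or.inl ⟨g, hgE, rfl⟩), g p', Or.inr (Or.inr ⟨g, hgE, rfl⟩), ?_⟩
    rw [hkey w hw, hkey w hw, hone _ _ g hgE (by simpa using hpA),
      hone _ _ g hgE (by simpa using hp'A)]
    simp only [inv_ap, βp, βp', mul_one, mul_zero, neg_zero, add_zero]
    have h := (hA _ hp'A).2.2.2.1 w hw g hgE
    rw [abs_lt] at h
    rw [le_abs] at hg ⊢
    rcases hg with hg | hg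
    · right; linarith [h.1, h.2]
    · left; linarith [h.1, h.2]
  · have hsub : {x | φ x ≠ 0} ⊆ ⋃ g ∈ E, Metric.closedBall (g p) δ' := by
      intro x hx
      by_contra hc
      apply hx
      simp only [hφ]
      rw [hzero, neg_zero]
      intro g hg h
      have := (hA _ h).2.2.2.2 g hg
      simp only [ap_inv] at this
      exact hc (mem_iUnion₂.2 ⟨g, hg, this.le⟩)
    rw [hεdef]
    exact (measure_mono hsub).trans (vol_le E (fun g => g p) hε hδ')

end Pool.Agent.H507Z.Circ
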